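import Mathlib

/-!
# The choice of the parameters
-/

set_option autoImplicit false

namespace Pool.Agent.D0H38.TC

open Filter Topology Real

theorem asym (m : ℕ) (ε : ℝ) (hε : 0 < ε) :
    ∀ᶠ D : ℕ in atTop, ∃ r J k : ℕ, 0 < r ∧ 4 * m ≤ D ∧ 8 * r ^ J ≤ D ∧
      D * (32 * r) ^ k ≤ k.factorial ∧
      4 * ((J : ℝ) + 1) * (D : ℝ) ^ 2 * Real.exp 1 ≤ Real.exp ((D : ℝ) / (r : ℝ) ^ J / 14) ∧
      ((J * k + 6 * m + 4 : ℕ) : ℝ) ≤ (4 + ε) * (log D / log (log D)) ^ 2 ∧
      ((m + 2 * D / r ^ J + 3 : ℕ) : ℝ) ≤ (4 + ε) * (log D / log (log D)) ^ 2 := by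
  have hx : Tendsto (fun n : ℕ => log (n : ℝ)) atTop atTop :=
    tendsto_log_atTop.comp tendsto_natCast_atTop_atTop
  have hy : Tendsto (fun n : ℕ => log (log (n : ℝ))) atTop atTop := tendsto_log_atTop.comp hx
  have hq : Tendsto (fun x : ℝ => log x / x) atTop (𝓝 0) := by
    have := Real.isLittleO_log_id_atTop
    exact this.tendsto_div_nhds_zero
  -- `(log y + c) / y → 0`
  set c : ℝ := 1 + log 64 with hc
  have hc0 : 0 ≤ c := by
    have : (0:ℝ) ≤ log 64 := Real.log_nonneg (by norm_num)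
    linarith
  have h1 : Tendsto (fun y : ℝ => (log y + c) / y) atTop (𝓝 0) := by
    have h2 : Tendsto (fun y : ℝ => c / y) atTop (𝓝 0) := tendsto_const_nhds.div_atTop tendsto_id
    have h3 := hq.add h2
    rw [add_zero] at h3
    exact h3.congr fun y => (add_div _ _ _).symm
  set δ : ℝ := ε / 4 with hδ
  have hδ0 : 0 < δ := by positivity
  set η : ℝ := δ / (2 * (4 + δ)) with hη
  have hη0 : 0 < η := by positivity
  have h2 : ∀ᶠ n : ℕ in atTop, (log (log (log (n:ℝ))) + c) / log (log (n:ℝ)) < η :=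
    hy.eventually (h1.eventually_lt_const hη0)
  -- `log x / x` is small
  set θ : ℝ := min (1 / 4) (min (δ / 2) (ε / (4 * (6 * m + 4)))) with hθ
  have hθ0 : 0 < θ := by
    rw [hθ]
    positivity
  have h3 : ∀ᶠ n : ℕ in atTop, log (log (n:ℝ)) / log (n:ℝ) < θ :=
    hx.eventually (hq.eventually_lt_const hθ0)
  have h4 : ∀ᶠ n : ℕ in atTop, log (log (n:ℝ)) ^ 4 / log (n:ℝ) < (1 / 122) ^ 2 := by
    have h5 : Tendsto (fun x : ℝ => log x ^ 4 / x) atTop (𝓝 0) := by
      have := isLittleO_pow_log_id_atTop (n := 4)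
      exact this.tendsto_div_nhds_zero
    exact hx.eventually (h5.eventually_lt_const (by norm_num))
  filter_upwards [h2, h3, h4, hx.eventually_gt_atTop 200, hx.eventually_gt_atTop ((m + 4 : ℝ) ^ 2),
    hy.eventually_gt_atTop 1, eventually_gt_atTop 0, eventually_ge_atTop (4 * m)] with
    n e2 e3 e4 ex exm ey hn0 hnm
  set x : ℝ := log (n:ℝ) with hxd
  set y : ℝ := log x with hyd
  have hx0 : 0 < x := by linarith
  have hy0 : 0 < y := by linarith
  set s : ℝ := √x with hs
  have hs2 : s ^ 2 = x := Real.sq_sqrt hx0.le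
  have hs0 : 0 < s := Real.sqrt_pos.2 hx0
  have hsm : (m : ℝ) + 4 < s := by
    have hm0 : (0 : ℝ) ≤ m := Nat.cast_nonneg m
    exact (Real.lt_sqrt (by linarith)).2 exm
  have hs1 : 1 < s := by
    have hm0 : (0 : ℝ) ≤ m := Nat.cast_nonneg m
    linarith
  have hlogs : log s = y / 2 := by
    have e5 : log (s ^ 2) = 2 * log s := by rw [Real.log_pow]; norm_num
    rw [hs2] at e5
    linarith
  have hnexp : (n : ℝ) = exp x := by
    rw [hxd, Real.exp_log (by exact_mod_cast hn0)]
  set q : ℝ := x / y with hqd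
  have hq0 : 0 < q := div_pos hx0 hy0
  have hqθ : 1 < θ * q := by
    rw [div_lt_iff₀ hx0] at e3
    rw [hqd, ← mul_div_assoc, lt_div_iff₀ hy0]
    linarith
  have hθ1 : θ ≤ 1 / 4 := min_le_left _ _
  have hθ2 : θ ≤ δ / 2 := (min_le_right _ _).trans (min_le_left _ _)
  have hθ3 : θ ≤ ε / (4 * (6 * m + 4)) := (min_le_right _ _).trans (min_le_right _ _)
  have hyx : y < x / 4 := by
    rw [div_lt_iff₀ hx0] at e3
    have := mul_le_mul_of_nonneg_right hθ1 hx0.le
    linarith
  have hq1 : 1 < q := by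
    have := mul_le_mul_of_nonneg_right hθ1 hq0.le
    linarith
  have hqx : q < x := div_lt_self hx0 ey
  have hA : 1 < δ / 2 * q := lt_of_lt_of_le hqθ (mul_le_mul_of_nonneg_right hθ2 hq0.le)
  have hB : (6 * m + 4 : ℝ) ≤ ε / 4 * q := by
    have h4 : 1 < ε / (4 * (6 * m + 4)) * q :=
      lt_of_lt_of_le hqθ (mul_le_mul_of_nonneg_right hθ3 hq0.le)
    have h5 : (0:ℝ) < 4 * (6 * m + 4) := by positivity
    rw [div_mul_eq_mul_div, lt_div_iff₀ h5] at h4
    linarith
  -- `r`
  set r : ℕ := ⌈s⌉₊ with hr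
  have hr1 : s ≤ r := Nat.le_ceil s
  have hr2 : (r : ℝ) ≤ 2 * s := by
    have := Nat.ceil_lt_add_one hs0.le
    rw [← hr] at this
    linarith
  have hr0 : (0 : ℝ) < r := by linarith
  have hrn : 0 < r := by exact_mod_cast hr0
  set l : ℝ := log r with hl
  have hl1 : y / 2 ≤ l := by
    rw [← hlogs]
    exact Real.log_le_log hs0 hr1
  have hl2 : l ≤ log 2 + y / 2 := by
    rw [← hlogs, ← Real.log_mul (by norm_num) hs0.ne']
    exact Real.log_le_log hr0 hr2
  have hl0 : 0 < l := by linarith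
  -- `J`
  have hlog60 : log 60 < 60 := by
    have := Real.log_le_sub_one_of_pos (show (0:ℝ) < 60 by norm_num)
    linarith
  have hlog60' : 0 < log 60 := Real.log_pos (by norm_num)
  set z : ℝ := (x - y - log 60) / l with hz
  have hz0 : 0 ≤ z := by
    apply div_nonneg _ hl0.le
    linarith
  set J : ℕ := ⌊z⌋₊ with hJ
  have hJ1 : (J : ℝ) ≤ z := Nat.floor_le hz0
  have hJ2 : z < J + 1 := Nat.lt_floor_add_one z
  have hJl1 : (J : ℝ) * l ≤ x - y - log 60 := by
    rw [hz, le_div_iff₀ hl0] at hJ1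
    exact hJ1
  have hJl2 : x - y - log 60 < (J + 1) * l := by
    rw [hz, div_lt_iff₀ hl0] at hJ2
    exact hJ2
  have hrJ : (r : ℝ) ^ J = exp (J * l) := by
    rw [Real.exp_nat_mul, hl, Real.exp_log hr0]
  have hrJ0 : (0 : ℝ) < (r : ℝ) ^ J := by positivity
  have hexpl : exp l = r := by rw [hl, Real.exp_log hr0]
  have hexpy : exp y = x := by rw [hyd, Real.exp_log hx0]
  have hexp60 : exp (log 60) = 60 := Real.exp_log (by norm_num)
  have hlow : (r : ℝ) ^ J * (60 * x) ≤ n := by
    have e5 : (r : ℝ) ^ J * (60 * x) = exp (J * l + log 60 + y) := by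
      rw [Real.exp_add, Real.exp_add, ← hrJ, hexp60, hexpy]
      ring
    rw [e5, hnexp]
    apply Real.exp_le_exp.2
    linarith
  have hupp : (n : ℝ) ≤ (r : ℝ) ^ J * (120 * s ^ 3) := by
    have e5 : (r : ℝ) ^ J * r * (60 * x) = exp ((J + 1) * l + log 60 + y) := by
      rw [Real.exp_add, Real.exp_add, add_mul, one_mul, Real.exp_add, ← hrJ, hexp60, hexpy, hexpl]
      ring
    have e6 : (n : ℝ) ≤ (r : ℝ) ^ J * r * (60 * x) := by
      rw [e5, hnexp]
      apply Real.exp_le_exp.2
      linarith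
    refine e6.trans ?_
    calc (r : ℝ) ^ J * r * (60 * x) = (r : ℝ) ^ J * (60 * x * r) := by ring
      _ ≤ (r : ℝ) ^ J * (60 * x * (2 * s)) := by
          apply mul_le_mul_of_nonneg_left _ hrJ0.le
          apply mul_le_mul_of_nonneg_left hr2
          positivity
      _ = (r : ℝ) ^ J * (120 * s ^ 3) := by
          rw [← hs2]
          ring
  have hJq : (J : ℝ) ≤ 2 * q := by
    refine hJ1.trans ?_
    rw [hz, div_le_iff₀ hl0, hqd]
    have e5 : x ≤ 2 * (x / y) * l := by
      have e6 : 2 * (x / y) * (y / 2) ≤ 2 * (x / y) * l := by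
        apply mul_le_mul_of_nonneg_left hl1
        positivity
      have e7 : 2 * (x / y) * (y / 2) = x := by field_simp
      linarith
    linarith
  -- `k`
  set k : ℕ := ⌊(2 + δ) * q⌋₊ with hk
  have hk1 : (k : ℝ) ≤ (2 + δ) * q := Nat.floor_le (by positivity)
  have hk2 : (2 + δ / 2) * q ≤ k := by
    have h4 := Nat.lt_floor_add_one ((2 + δ) * q)
    rw [← hk] at h4
    have h5 : (2 + δ) * q = (2 + δ / 2) * q + δ / 2 * q := by ring
    linarith
  have hkpos : (0:ℝ) < k := lt_of_lt_of_le (by positivity) hk2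
  refine ⟨r, J, k, hrn, hnm, ?_, ?_, ?_, ?_, ?_⟩
  · have e5 : (8 : ℝ) * (r : ℝ) ^ J ≤ n := by
      refine le_trans ?_ hlow
      rw [mul_comm]
      apply mul_le_mul_of_nonneg_left _ hrJ0.le
      linarith
    exact_mod_cast e5
  · -- the factorial
    have h4 : (k:ℝ) ^ k / (k.factorial : ℝ) ≤ exp k := Real.pow_div_factorial_le_exp (k:ℝ) hkpos.le k
    have hfac : (0:ℝ) < k.factorial := by exact_mod_cast k.factorial_pos
    rw [div_le_iff₀ hfac] at h4
    have h5 : (k:ℝ) * log k ≤ k + log (k.factorial : ℝ) := by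
      have h6 := Real.log_le_log (by positivity) h4
      rw [Real.log_pow, Real.log_mul (exp_pos _).ne' hfac.ne', Real.log_exp] at h6
      exact h6
    have hlogk : y - log y ≤ log k := by
      have h6 : log q = y - log y := by
        rw [hqd, Real.log_div hx0.ne' hy0.ne']
      rw [← h6]
      apply Real.log_le_log hq0
      refine le_trans ?_ hk2
      exact le_mul_of_one_le_left hq0.le (by linarith)
    have hlog32 : log (32 * (r : ℝ)) ≤ log 64 + y / 2 := by
      rw [Real.log_mul (by norm_num) hr0.ne', ← hl]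
      have h6 : log 64 = log 32 + log 2 := by
        rw [← Real.log_mul (by norm_num) (by norm_num)]
        norm_num
      linarith
    have hmain : x + k * log (32 * (r : ℝ)) ≤ log (k.factorial : ℝ) := by
      have h7 : log y + c < η * y := by
        rw [div_lt_iff₀ hy0] at e2
        exact e2
      have h8 : (k : ℝ) * (y / 2 - η * y) ≤ k * (log k - 1 - log (32 * (r : ℝ))) := by
        apply mul_le_mul_of_nonneg_left _ hkpos.le
        rw [hc] at h7
        linarith
      have h9 : x ≤ k * (y / 2 - η * y) := by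
        have h10 : (2 + δ / 2) * q * (y / 2 - η * y) ≤ k * (y / 2 - η * y) := by
          apply mul_le_mul_of_nonneg_right hk2
          have : η ≤ 1 / 2 := by
            rw [hη, div_le_div_iff₀ (by positivity) (by norm_num)]
            linarith
          have := mul_le_mul_of_nonneg_right this hy0.le
          linarith
        refine le_trans ?_ h10
        have h11 : (2 + δ / 2) * q * (y / 2 - η * y) = (2 + δ / 2) * (1 / 2 - η) * x := by
          rw [hqd]
          field_simp
        rw [h11]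
        have h12 : (2 + δ / 2) * (1 / 2 - η) = 1 := by
          rw [hη]
          field_simp
          ring
        rw [h12, one_mul]
      linarith
    have h13 : (n : ℝ) * (32 * (r : ℝ)) ^ k ≤ k.factorial := by
      have h14 : (0:ℝ) < (n : ℝ) * (32 * (r : ℝ)) ^ k := by
        have : (0:ℝ) < n := by exact_mod_cast hn0
        positivity
      rw [← Real.log_le_log_iff h14 hfac, Real.log_mul (by positivity) (by positivity),
        Real.log_pow, ← hxd]
      exact hmain
    exact_mod_cast h13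
  · -- the probability
    have e5 : 60 * x / 14 ≤ (n : ℝ) / (r : ℝ) ^ J / 14 := by
      apply div_le_div_of_nonneg_right _ (by norm_num)
      rw [le_div_iff₀ hrJ0]
      linarith
    have e6 : exp (60 * x / 14) ≤ exp ((n : ℝ) / (r : ℝ) ^ J / 14) := Real.exp_le_exp.2 e5
    refine le_trans ?_ e6
    have e7 : (n : ℝ) ^ 2 * exp (2 * x) ≤ exp (60 * x / 14) := by
      rw [hnexp, ← Real.exp_nat_mul, ← Real.exp_add]
      apply Real.exp_le_exp.2
      push_cast
      linarith
    refine le_trans ?_ e7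
    have e8 : 4 * ((J : ℝ) + 1) * exp 1 ≤ exp (2 * x) := by
      have e9 : exp 1 < 3 := by
        have := Real.exp_one_lt_d9
        linarith
      have e10 : 4 * ((J : ℝ) + 1) * exp 1 ≤ 4 * (2 * x + 1) * 3 := by
        have e11 : 4 * ((J : ℝ) + 1) ≤ 4 * (2 * x + 1) := by linarith
        have e12 : (0 : ℝ) ≤ 4 * (2 * x + 1) := by linarith
        exact mul_le_mul e11 e9.le (Real.exp_pos _).le e12
      have e11 : 4 * (2 * x + 1) * 3 ≤ exp (2 * x) := by
        have e12 : (1 + x) ^ 2 ≤ exp (2 * x) := by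
          have e13 : 1 + x ≤ exp x := by
            have := Real.add_one_le_exp x
            linarith
          have e14 : exp (2 * x) = exp x ^ 2 := by
            rw [← Real.exp_nat_mul]
            norm_num
          rw [e14]
          exact pow_le_pow_left₀ (by linarith) e13 2
        have e15 : 200 * x ≤ x ^ 2 := by
          rw [sq]
          exact mul_le_mul_of_nonneg_right ex.le hx0.le
        have e16 : (1 + x) ^ 2 = 1 + 2 * x + x ^ 2 := by ring
        linarith
      exact e10.trans e11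
    calc 4 * ((J : ℝ) + 1) * (n : ℝ) ^ 2 * exp 1 = (n : ℝ) ^ 2 * (4 * ((J : ℝ) + 1) * exp 1) := by
          ring
      _ ≤ (n : ℝ) ^ 2 * exp (2 * x) := mul_le_mul_of_nonneg_left e8 (by positivity)
  · push_cast
    have e5 : (J : ℝ) * k ≤ 2 * q * ((2 + δ) * q) :=
      mul_le_mul hJq hk1 hkpos.le (by positivity)
    have e6 : (6 * m + 4 : ℝ) ≤ ε / 4 * q ^ 2 := by
      refine hB.trans ?_
      have : q ≤ q ^ 2 := le_self_pow₀ hq1.le (by norm_num)
      exact mul_le_mul_of_nonneg_left this (by positivity)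
    have e7 : 0 ≤ ε * q ^ 2 := by positivity
    have e8 : 2 * q * ((2 + δ) * q) = 4 * q ^ 2 + ε / 2 * q ^ 2 := by
      rw [hδ]
      ring
    have e9 : (4 + ε) * q ^ 2 = 4 * q ^ 2 + ε / 2 * q ^ 2 + ε / 4 * q ^ 2 + 1 / 4 * (ε * q ^ 2) := by
      ring
    linarith
  · have e5 : ((2 * n / r ^ J : ℕ) : ℝ) ≤ 240 * s ^ 3 := by
      refine (Nat.cast_div_le).trans ?_
      push_cast
      rw [div_le_iff₀ hrJ0]
      have e6 : 240 * s ^ 3 * (r : ℝ) ^ J = 2 * ((r : ℝ) ^ J * (120 * s ^ 3)) := by ring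
      linarith
    have e6 : y ^ 2 ≤ s / 122 := by
      rw [div_lt_iff₀ hx0] at e4
      have e7 : (y ^ 2) ^ 2 ≤ (s / 122) ^ 2 := by
        calc (y ^ 2) ^ 2 = y ^ 4 := by ring
          _ ≤ (1 / 122) ^ 2 * x := e4.le
          _ = (s / 122) ^ 2 := by rw [← hs2]; ring
      exact le_of_sq_le_sq e7 (by positivity)
    have e8 : 488 * s ^ 3 ≤ (4 + ε) * q ^ 2 := by
      have e9 : q ^ 2 = s ^ 4 / y ^ 2 := by
        rw [hqd, div_pow, ← hs2]
        ring
      rw [e9, ← mul_div_assoc, le_div_iff₀ (by positivity)]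
      calc 488 * s ^ 3 * y ^ 2 ≤ 488 * s ^ 3 * (s / 122) :=
            mul_le_mul_of_nonneg_left e6 (by positivity)
        _ = 4 * s ^ 4 := by ring
        _ ≤ (4 + ε) * s ^ 4 := by
            apply mul_le_mul_of_nonneg_right _ (by positivity)
            linarith
    push_cast
    have e10 : (m : ℝ) + 3 ≤ s ^ 3 := by
      have e11 : s ≤ s ^ 3 := le_self_pow₀ hs1.le (by norm_num)
      linarith
    have e12 : 0 ≤ s ^ 3 := by positivity
    have e13 : ((2 * n / r ^ J : ℕ) : ℝ) ≤ 240 * s ^ 3 := e5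
    push_cast at e13
    linarith

end Pool.Agent.D0H38.TC
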