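import Mathlib

/-!
# Counting list colourings with few conflicts (Rosenfeld's counting argument)
-/

set_option autoImplicit false

namespace Pool.Agent.D0H38.TC

open Finset

variable {V : Type} [Fintype V]

open Classical in
/-- The proper colourings of `U` from the lists `L`, with the value `0` outside of `U`, such that every
`v` has at most `k` members `w` of `S v ∩ U` of colour `b v w`. -/
noncomputable def Col (G : SimpleGraph V) (L : V → Finset ℕ) (b : V → V → ℕ) (S : V → Finset V)
    (k : ℕ) (U : Finset V) : Finset (V → ℕ) :=
  (Fintype.piFinset (fun w => if w ∈ U then L w else {0})).filter (fun f =>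
    (∀ u ∈ U, ∀ w ∈ U, G.Adj u w → f u ≠ f w) ∧
    ∀ v, ((S v ∩ U).filter (fun w => f w = b v w)).card ≤ k)

open Classical in
theorem mem_col {G : SimpleGraph V} {L : V → Finset ℕ} {b : V → V → ℕ} {S : V → Finset V}
    {k : ℕ} {U : Finset V} {f : V → ℕ} : f ∈ Col G L b S k U ↔
      (∀ w ∈ U, f w ∈ L w) ∧ (∀ w, w ∉ U → f w = 0) ∧
      (∀ u ∈ U, ∀ w ∈ U, G.Adj u w → f u ≠ f w) ∧
      ∀ v, ((S v ∩ U).filter (fun w => f w = b v w)).card ≤ k := by
  unfold Col
  rw [mem_filter, Fintype.mem_piFinset]
  constructor
  · rintro ⟨h1, h2, h3⟩
    refine ⟨fun w hw => ?_, fun w hw => ?_, h2, h3⟩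
    · have := h1 w
      rwa [if_pos hw] at this
    · have := h1 w
      rwa [if_neg hw, mem_singleton] at this
  · rintro ⟨h1, h2, h3, h4⟩
    refine ⟨fun w => ?_, h3, h4⟩
    split_ifs with hw
    · exact h1 w hw
    · rw [mem_singleton]
      exact h2 w hw

open Classical in
/-- the restriction to `U` -/
noncomputable def res (U : Finset V) (f : V → ℕ) : V → ℕ := fun w => if w ∈ U then f w else 0

open Classical in
theorem ratio_step (G : SimpleGraph V) (A : Finset V) (L : V → Finset ℕ) (b : V → V → ℕ)
    (S : V → Finset V) (D a k β : ℕ) (hβ0 : 0 < β)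
    (hβ : ∀ w ∈ A, 2 * β + (A.filter (fun u => G.Adj u w)).card ≤ (L w).card)
    (hS : ∀ v, (S v ∩ A).card ≤ a)
    (hD : ∀ w ∈ A, (univ.filter (fun v => w ∈ S v)).card ≤ D)
    (hk : D * a.choose k ≤ β ^ (k + 1)) :
    ∀ n : ℕ, ∀ U : Finset V, U.card = n → U ⊆ A → ∀ w ∈ A, w ∉ U →
      β * (Col G L b S k U).card ≤ (Col G L b S k (insert w U)).card := by
  intro n
  induction n using Nat.strong_induction_on with
  | _ n ih =>
    intro U hUn hUA w hwA hwU
    -- consequences of the induction hypothesis
    have chain : ∀ T : Finset V, T ⊆ U →
        β ^ T.card * (Col G L b S k (U \ T)).card ≤ (Col G L b S k U).card := by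
      intro T
      induction T using Finset.induction_on with
      | empty =>
        intro _
        simp
      | insert t T htT ihT =>
        intro hTU
        have htU : t ∈ U := hTU (mem_insert_self _ _)
        have hTU' : T ⊆ U := fun x hx => hTU (mem_insert_of_mem hx)
        have h1 := ihT hTU'
        have h2 : insert t (U \ insert t T) = U \ T := by
          ext x
          simp only [mem_insert, mem_sdiff, not_or]
          constructor
          · rintro (rfl | ⟨h, h', h''⟩)
            · exact ⟨htU, htT⟩
            · exact ⟨h, h''⟩
          · rintro ⟨h, h'⟩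
            by_cases hx : x = t
            · exact Or.inl hx
            · exact Or.inr ⟨h, hx, h'⟩
        have h3 : t ∉ U \ insert t T := by simp
        have h4 : (U \ insert t T).card < n := by
          rw [← hUn]
          apply card_lt_card
          refine ⟨sdiff_subset, fun hc => h3 (hc htU)⟩
        have h5 := ih _ h4 (U \ insert t T) rfl (sdiff_subset.trans hUA) t (hUA htU) h3
        rw [h2] at h5
        rw [card_insert_of_notMem htT, pow_succ]
        calc β ^ T.card * β * (Col G L b S k (U \ insert t T)).card
            = β ^ T.card * (β * (Col G L b S k (U \ insert t T)).card) := by ring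
          _ ≤ β ^ T.card * (Col G L b S k (U \ T)).card := Nat.mul_le_mul_left _ h5
          _ ≤ _ := h1
    -- the extensions
    set Av : (V → ℕ) → Finset ℕ := fun f => (L w).filter (fun c => ∀ u ∈ U, G.Adj u w → f u ≠ c)
      with hAv
    have hAvc : ∀ f, 2 * β ≤ (Av f).card := by
      intro f
      have h1 : (L w) \ ((U.filter (fun u => G.Adj u w)).image f) ⊆ Av f := by
        intro c hc
        rw [mem_sdiff] at hc
        rw [hAv, mem_filter]
        refine ⟨hc.1, fun u hu huw h => hc.2 ?_⟩
        rw [mem_image]
        exact ⟨u, by simp [hu, huw], h⟩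
      have h2 := card_le_card h1
      have h3 := le_card_sdiff ((U.filter (fun u => G.Adj u w)).image f) (L w)
      have h4 : ((U.filter (fun u => G.Adj u w)).image f).card ≤
          (A.filter (fun u => G.Adj u w)).card :=
        card_image_le.trans (card_le_card (filter_subset_filter _ hUA))
      have h5 := hβ w hwA
      omega
    set E : Finset (V → ℕ) := (Col G L b S k U).biUnion
      (fun f => (Av f).image (fun c => Function.update f w c)) with hE
    have hEmem : ∀ g, g ∈ E ↔ ∃ f ∈ Col G L b S k U, ∃ c ∈ Av f, Function.update f w c = g := by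
      intro g
      rw [hE, mem_biUnion]
      simp only [mem_image]
    have hupd : ∀ f ∈ Col G L b S k U, ∀ c, Function.update (Function.update f w c) w 0 = f := by
      intro f hf c
      rw [mem_col] at hf
      funext x
      by_cases hx : x = w
      · subst hx
        rw [Function.update_self, hf.2.1 x hwU]
      · rw [Function.update_of_ne hx, Function.update_of_ne hx]
    have hEc : 2 * β * (Col G L b S k U).card ≤ E.card := by
      rw [hE, card_biUnion]
      · rw [mul_comm, ← smul_eq_mul]
        apply card_nsmul_le_sum
        intro f _
        rw [card_image_of_injective]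
        · exact hAvc f
        · intro c c' h
          have := congrFun h w
          simpa using this
      · intro f hf f' hf' hne
        rw [Function.onFun, disjoint_left]
        intro g hg hg'
        rw [mem_image] at hg hg'
        obtain ⟨c, -, rfl⟩ := hg
        obtain ⟨c', -, h⟩ := hg'
        apply hne
        rw [← hupd f hf c, ← h, hupd f' hf' c']
    set Bad : Finset (V → ℕ) := (univ.filter (fun v => w ∈ S v)).biUnion (fun v =>
      (powersetCard k (S v ∩ U)).biUnion (fun T =>
        E.filter (fun g => g w = b v w ∧ ∀ u ∈ T, g u = b v u))) with hBad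
    have hEsub : E ⊆ Col G L b S k (insert w U) ∪ Bad := by
      intro g hg
      rw [mem_union]
      by_contra hcon
      push Not at hcon
      obtain ⟨hcon1, hcon2⟩ := hcon
      apply hcon1
      have hg' := hg
      rw [hEmem] at hg
      obtain ⟨f, hf, c, hc, rfl⟩ := hg
      rw [mem_col] at hf
      obtain ⟨hf1, hf2, hf3, hf4⟩ := hf
      have hc1 := (mem_filter.1 hc).1
      have hc2 := (mem_filter.1 hc).2
      have hne : ∀ u ∈ U, u ≠ w := fun u hu h => hwU (h ▸ hu)
      rw [mem_col]
      refine ⟨?_, ?_, ?_, ?_⟩
      · intro u hu
        rcases mem_insert.1 hu with rfl | hu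
        · rw [Function.update_self]
          exact hc1
        · rw [Function.update_of_ne (hne u hu)]
          exact hf1 u hu
      · intro u hu
        rw [mem_insert, not_or] at hu
        rw [Function.update_of_ne hu.1]
        exact hf2 u hu.2
      · intro u hu x hx hux
        rcases mem_insert.1 hu with hu1 | hu1
        · rcases mem_insert.1 hx with hx1 | hx1
          · rw [hu1, hx1] at hux
            exact absurd hux (G.loopless.irrefl _)
          · rw [hu1] at hux ⊢
            rw [Function.update_self, Function.update_of_ne (hne x hx1)]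
            exact (hc2 x hx1 hux.symm).symm
        · rcases mem_insert.1 hx with hx1 | hx1
          · rw [hx1] at hux ⊢
            rw [Function.update_self, Function.update_of_ne (hne u hu1)]
            exact hc2 u hu1 hux
          · rw [Function.update_of_ne (hne u hu1), Function.update_of_ne (hne x hx1)]
            exact hf3 u hu1 x hx1 hux
      · intro v
        by_contra hv
        push Not at hv
        have h1 : (S v ∩ insert w U).filter (fun u => Function.update f w c u = b v u) ⊆
            insert w ((S v ∩ U).filter (fun u => f u = b v u)) := by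
          intro u hu
          rw [mem_filter, mem_inter, mem_insert] at hu
          rw [mem_insert, mem_filter, mem_inter]
          by_cases huw : u = w
          · exact Or.inl huw
          · rw [Function.update_of_ne huw] at hu
            right
            obtain ⟨⟨h1, h2⟩, h3⟩ := hu
            rcases h2 with h2 | h2
            · exact absurd h2 huw
            · exact ⟨⟨h1, h2⟩, h3⟩
        have hwin : w ∈ (S v ∩ insert w U).filter (fun u => Function.update f w c u = b v u) := by
          by_contra hw
          have h2 : (S v ∩ insert w U).filter (fun u => Function.update f w c u = b v u) ⊆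
              (S v ∩ U).filter (fun u => f u = b v u) := by
            intro u hu
            rcases mem_insert.1 (h1 hu) with rfl | h
            · exact absurd hu hw
            · exact h
          have h3 := card_le_card h2
          have h4 := hf4 v
          omega
        rw [mem_filter, mem_inter, Function.update_self] at hwin
        have h2 : k ≤ ((S v ∩ U).filter (fun u => f u = b v u)).card := by
          have h3 := card_le_card h1
          have h4 := card_insert_le w ((S v ∩ U).filter (fun u => f u = b v u))
          omega
        obtain ⟨T, hT1, hT2⟩ := exists_subset_card_eq h2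
        apply hcon2
        rw [hBad, mem_biUnion]
        refine ⟨v, by simp [hwin.1.1], ?_⟩
        rw [mem_biUnion]
        refine ⟨T, ?_, ?_⟩
        · rw [mem_powersetCard]
          exact ⟨hT1.trans (filter_subset _ _), hT2⟩
        · rw [mem_filter]
          refine ⟨hg', by rw [Function.update_self]; exact hwin.2, fun u hu => ?_⟩
          have h5 := mem_filter.1 (hT1 hu)
          have h6 : u ∈ U := (mem_inter.1 h5.1).2
          rw [Function.update_of_ne (hne u h6)]
          exact h5.2
    -- the number of the bad extensions
    have hinner : ∀ v, ∀ T ∈ powersetCard k (S v ∩ U),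
        (E.filter (fun g => g w = b v w ∧ ∀ u ∈ T, g u = b v u)).card ≤
          (Col G L b S k (U \ T)).card := by
      intro v T hT
      rw [mem_powersetCard] at hT
      refine card_le_card_of_injOn (res (U \ T)) ?_ ?_
      · intro g hg
        rw [mem_coe, mem_filter, hEmem] at hg
        obtain ⟨⟨f, hf, c, hc, rfl⟩, hg2, hg3⟩ := hg
        rw [mem_coe, mem_col]
        rw [mem_col] at hf
        obtain ⟨hf1, hf2, hf3, hf4⟩ := hf
        have hres : ∀ u ∈ U \ T, res (U \ T) (Function.update f w c) u = f u := by
          intro u hu
          unfold res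
          rw [if_pos hu]
          rw [Function.update_of_ne]
          rintro rfl
          exact hwU (mem_sdiff.1 hu).1
        refine ⟨?_, ?_, ?_, ?_⟩
        · intro u hu
          rw [hres u hu]
          exact hf1 u (mem_sdiff.1 hu).1
        · intro u hu
          unfold res
          rw [if_neg hu]
        · intro u hu x hx hux
          rw [hres u hu, hres x hx]
          exact hf3 u (mem_sdiff.1 hu).1 x (mem_sdiff.1 hx).1 hux
        · intro v'
          refine le_trans (card_le_card ?_) (hf4 v')
          intro u hu
          rw [mem_filter, mem_inter] at hu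
          rw [hres u hu.1.2] at hu
          rw [mem_filter, mem_inter]
          exact ⟨⟨hu.1.1, (mem_sdiff.1 hu.1.2).1⟩, hu.2⟩
      · intro g hg g' hg' h
        rw [mem_coe, mem_filter, hEmem] at hg hg'
        obtain ⟨⟨f, hf, c, hc, rfl⟩, hg2, hg3⟩ := hg
        obtain ⟨⟨f', hf', c', hc', rfl⟩, hg2', hg3'⟩ := hg'
        funext x
        by_cases hxw : x = w
        · subst hxw
          rw [hg2, hg2']
        · by_cases hxT : x ∈ T
          · rw [hg3 x hxT, hg3' x hxT]
          · by_cases hxU : x ∈ U
            · have h1 := congrFun h x
              have h2 : x ∈ U \ T := mem_sdiff.2 ⟨hxU, hxT⟩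
              unfold res at h1
              rw [if_pos h2, if_pos h2] at h1
              exact h1
            · rw [Function.update_of_ne hxw, Function.update_of_ne hxw,
                (mem_col.1 hf).2.1 x hxU, (mem_col.1 hf').2.1 x hxU]
    have hpow : 0 < β ^ k := pow_pos hβ0 k
    have hBadc : β ^ k * Bad.card ≤ β ^ (k + 1) * (Col G L b S k U).card := by
      have h1 : Bad.card ≤ ∑ v ∈ univ.filter (fun v => w ∈ S v),
          ∑ T ∈ powersetCard k (S v ∩ U), (Col G L b S k (U \ T)).card := by
        refine card_biUnion_le.trans (sum_le_sum fun v _ => ?_)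
        exact card_biUnion_le.trans (sum_le_sum fun T hT => hinner v T hT)
      have h2 : ∀ v ∈ univ.filter (fun v => w ∈ S v),
          β ^ k * ∑ T ∈ powersetCard k (S v ∩ U), (Col G L b S k (U \ T)).card ≤
            a.choose k * (Col G L b S k U).card := by
        intro v _
        rw [mul_sum]
        have h3 : ∀ T ∈ powersetCard k (S v ∩ U),
            β ^ k * (Col G L b S k (U \ T)).card ≤ (Col G L b S k U).card := by
          intro T hT
          rw [mem_powersetCard] at hT
          have := chain T (hT.1.trans inter_subset_right)
          rwa [hT.2] at this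
        refine (sum_le_card_nsmul _ _ _ h3).trans ?_
        rw [smul_eq_mul, card_powersetCard]
        apply Nat.mul_le_mul_right
        apply Nat.choose_le_choose
        exact (card_le_card (inter_subset_inter_left hUA)).trans (hS v)
      calc β ^ k * Bad.card ≤ β ^ k * ∑ v ∈ univ.filter (fun v => w ∈ S v),
          ∑ T ∈ powersetCard k (S v ∩ U), (Col G L b S k (U \ T)).card :=
            Nat.mul_le_mul_left _ h1
        _ = ∑ v ∈ univ.filter (fun v => w ∈ S v),
            β ^ k * ∑ T ∈ powersetCard k (S v ∩ U), (Col G L b S k (U \ T)).card := by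
            rw [mul_sum]
        _ ≤ ∑ v ∈ univ.filter (fun v => w ∈ S v), a.choose k * (Col G L b S k U).card :=
            sum_le_sum h2
        _ = (univ.filter (fun v => w ∈ S v)).card * (a.choose k * (Col G L b S k U).card) := by
            rw [sum_const, smul_eq_mul]
        _ ≤ D * (a.choose k * (Col G L b S k U).card) := Nat.mul_le_mul_right _ (hD w hwA)
        _ = D * a.choose k * (Col G L b S k U).card := by ring
        _ ≤ _ := Nat.mul_le_mul_right _ hk
    have h1 : E.card ≤ (Col G L b S k (insert w U)).card + Bad.card :=
      (card_le_card hEsub).trans (card_union_le _ _)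
    have h2 : β ^ k * (2 * β * (Col G L b S k U).card) ≤
        β ^ k * (Col G L b S k (insert w U)).card + β ^ (k + 1) * (Col G L b S k U).card := by
      calc β ^ k * (2 * β * (Col G L b S k U).card) ≤ β ^ k * E.card :=
            Nat.mul_le_mul_left _ hEc
        _ ≤ β ^ k * ((Col G L b S k (insert w U)).card + Bad.card) := Nat.mul_le_mul_left _ h1
        _ = β ^ k * (Col G L b S k (insert w U)).card + β ^ k * Bad.card := by ring
        _ ≤ _ := Nat.add_le_add_left hBadc _
    have h3 : β ^ k * (β * (Col G L b S k U).card) ≤
        β ^ k * (Col G L b S k (insert w U)).card := by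
      have e1 : β ^ k * (2 * β * (Col G L b S k U).card) =
          β ^ k * (β * (Col G L b S k U).card) + β ^ (k + 1) * (Col G L b S k U).card := by ring
      omega
    exact Nat.le_of_mul_le_mul_left h3 hpow

open Classical in
/-- A list colouring of `A` in which every `v` has at most `k` members `w` of `S v ∩ A` of colour
`b v w`. -/
theorem class_colour (G : SimpleGraph V) (A : Finset V) (L : V → Finset ℕ) (b : V → V → ℕ)
    (S : V → Finset V) (D a k β : ℕ) (hβ0 : 0 < β)
    (hβ : ∀ w ∈ A, 2 * β + (A.filter (fun u => G.Adj u w)).card ≤ (L w).card)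
    (hS : ∀ v, (S v ∩ A).card ≤ a)
    (hD : ∀ w ∈ A, (univ.filter (fun v => w ∈ S v)).card ≤ D)
    (hk : D * a.choose k ≤ β ^ (k + 1)) :
    ∃ f : V → ℕ, (∀ w ∈ A, f w ∈ L w) ∧ (∀ u ∈ A, ∀ w ∈ A, G.Adj u w → f u ≠ f w) ∧
      ∀ v, ((S v ∩ A).filter (fun w => f w = b v w)).card ≤ k := by
  have key : ∀ U : Finset V, U ⊆ A → 0 < (Col G L b S k U).card := by
    intro U
    induction U using Finset.induction_on with
    | empty =>
      intro _
      rw [card_pos]
      refine ⟨fun _ => 0, ?_⟩
      rw [mem_col]
      refine ⟨by simp, by simp, by simp, by simp⟩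
    | insert w U hw ihU =>
      intro hU
      have h1 := ihU (fun x hx => hU (mem_insert_of_mem hx))
      have h2 := ratio_step G A L b S D a k β hβ0 hβ hS hD hk U.card U rfl
        (fun x hx => hU (mem_insert_of_mem hx)) w (hU (mem_insert_self _ _)) hw
      have h3 := Nat.mul_pos hβ0 h1
      omega
  have h := key A (Subset.refl _)
  rw [card_pos] at h
  obtain ⟨f, hf⟩ := h
  rw [mem_col] at hf
  exact ⟨f, hf.1, hf.2.2.1, hf.2.2.2⟩

end Pool.Agent.D0H38.TC
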