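import Mathlib
import Pool.Agent.Helper208.Rainbow.LLL

/-!
# Nested random sets which split all neighbourhoods evenly
-/

set_option autoImplicit false

namespace Pool.Agent.D0H38.TC

open Finset Pool.Agent.Helper208.Rainbow

section mgf

variable {κ : Type*} [Fintype κ] [DecidableEq κ] {α : Type*} [Fintype α] [DecidableEq α]

/-- the number of the members of `S` with label in `T` -/
def cnt (S : Finset κ) (T : Finset α) (ω : κ → α) : ℕ := (S.filter (fun k => ω k ∈ T)).card

theorem mgf_le [Nonempty α] (S : Finset κ) (T : Finset α) (z : ℝ) (hz : 0 ≤ z) :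
    ∑ ω : κ → α, z ^ cnt S T ω ≤
      Fintype.card (κ → α) * Real.exp (T.card / Fintype.card α * S.card * (z - 1)) := by
  have hα : (0 : ℝ) < Fintype.card α := by exact_mod_cast Fintype.card_pos
  set p : ℝ := T.card / Fintype.card α with hp
  let g : κ → α → ℝ := fun k a => if k ∈ S then (if a ∈ T then z else 1) else 1
  have h1 : ∀ ω : κ → α, z ^ cnt S T ω = ∏ k, g k (ω k) := by
    intro ω
    have e1 : ∏ k, g k (ω k) = ∏ k ∈ S, (if ω k ∈ T then z else 1) := by
      simp only [g]
      rw [prod_ite, prod_const_one, mul_one]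
      congr 1
      ext k
      simp
    rw [e1, prod_ite, prod_const, prod_const_one, mul_one]
    rfl
  have h2 : ∑ ω : κ → α, ∏ k, g k (ω k) = ∏ k, ∑ a, g k a := by
    rw [prod_univ_sum, Fintype.piFinset_univ]
  have h3 : ∀ k ∈ S, ∑ a, g k a ≤ Fintype.card α * Real.exp (p * (z - 1)) := by
    intro k hk
    have e1 : ∑ a, g k a = ∑ a, (1 + (if a ∈ T then (z - 1) else 0)) := by
      refine sum_congr rfl fun a _ => ?_
      simp only [g, if_pos hk]
      split_ifs <;> ring
    rw [e1, sum_add_distrib, sum_const, card_univ, nsmul_eq_mul, mul_one, ← sum_filter, sum_const,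
      nsmul_eq_mul]
    have e2 : (univ.filter (fun a => a ∈ T)) = T := by ext a; simp
    rw [e2]
    have e3 : (Fintype.card α : ℝ) + T.card * (z - 1) = Fintype.card α * (p * (z - 1) + 1) := by
      rw [hp]
      field_simp
      ring
    rw [e3]
    exact mul_le_mul_of_nonneg_left (Real.add_one_le_exp _) hα.le
  have h4 : ∀ k, k ∉ S → ∑ a, g k a = Fintype.card α := by
    intro k hk
    simp [g, hk]
  have h0 : ∀ k, 0 ≤ ∑ a, g k a := by
    intro k
    refine sum_nonneg fun a _ => ?_
    simp only [g]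
    split_ifs <;> first | exact hz | norm_num
  calc ∑ ω : κ → α, z ^ cnt S T ω = ∏ k, ∑ a, g k a := by
        rw [← h2]
        exact sum_congr rfl fun ω _ => h1 ω
    _ ≤ ∏ k, (Fintype.card α * (if k ∈ S then Real.exp (p * (z - 1)) else 1)) := by
        refine prod_le_prod (fun k _ => h0 k) fun k _ => ?_
        by_cases hk : k ∈ S
        · rw [if_pos hk]
          exact h3 k hk
        · rw [if_neg hk, mul_one, h4 k hk]
    _ = Fintype.card (κ → α) * Real.exp (p * S.card * (z - 1)) := by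
        rw [prod_mul_distrib, prod_const, card_univ, prod_ite, prod_const, prod_const_one, mul_one,
          Fintype.card_fun]
        have e2 : (univ.filter (fun k => k ∈ S)) = S := by ext a; simp
        rw [e2, ← Real.exp_nat_mul]
        push_cast
        congr 2
        ring

/-- Chernoff, upper tail -/
theorem upper_tail [Nonempty α] (S : Finset κ) (T : Finset α) (μ : ℝ)
    (hμ : (T.card : ℝ) / Fintype.card α * S.card ≤ μ) :
    ((univ.filter (fun ω : κ → α => 2 * μ < cnt S T ω)).card : ℝ) ≤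
      Real.exp (-μ / 14) * Fintype.card (κ → α) := by
  have hp0 : 0 ≤ (T.card : ℝ) / Fintype.card α * S.card := by positivity
  have hμ0 : 0 ≤ μ := hp0.trans hμ
  have h1 := mgf_le (κ := κ) (α := α) S T 2 (by norm_num)
  have h2 : ((univ.filter (fun ω : κ → α => 2 * μ < cnt S T ω)).card : ℝ) *
      Real.exp (2 * μ * Real.log 2) ≤ ∑ ω : κ → α, (2 : ℝ) ^ cnt S T ω := by
    calc ((univ.filter (fun ω : κ → α => 2 * μ < cnt S T ω)).card : ℝ) *
        Real.exp (2 * μ * Real.log 2)
        = ∑ ω ∈ univ.filter (fun ω : κ → α => 2 * μ < cnt S T ω),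
            Real.exp (2 * μ * Real.log 2) := by rw [sum_const, nsmul_eq_mul]
      _ ≤ ∑ ω ∈ univ.filter (fun ω : κ → α => 2 * μ < cnt S T ω), (2 : ℝ) ^ cnt S T ω := by
          refine sum_le_sum fun ω hω => ?_
          rw [mem_filter] at hω
          have e1 : (2 : ℝ) ^ cnt S T ω = Real.exp ((cnt S T ω : ℝ) * Real.log 2) := by
            rw [Real.exp_nat_mul, Real.exp_log (by norm_num)]
          rw [e1]
          apply Real.exp_le_exp.2
          exact mul_le_mul_of_nonneg_right hω.2.le (Real.log_nonneg (by norm_num))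
      _ ≤ _ := sum_le_sum_of_subset_of_nonneg (filter_subset _ _) fun ω _ _ => by positivity
  have h3 : Real.exp (T.card / Fintype.card α * S.card * ((2 : ℝ) - 1)) ≤ Real.exp μ := by
    apply Real.exp_le_exp.2
    linarith
  have h4 : ((univ.filter (fun ω : κ → α => 2 * μ < cnt S T ω)).card : ℝ) *
      Real.exp (2 * μ * Real.log 2) ≤ Fintype.card (κ → α) * Real.exp μ :=
    h2.trans (h1.trans (mul_le_mul_of_nonneg_left h3 (by positivity)))
  have h5 : Real.exp (-μ / 14) * Real.exp (2 * μ * Real.log 2) ≥ Real.exp μ := by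
    rw [← Real.exp_add]
    apply Real.exp_le_exp.2
    have := Real.log_two_gt_d9
    nlinarith
  have h6 : ((univ.filter (fun ω : κ → α => 2 * μ < cnt S T ω)).card : ℝ) *
      Real.exp (2 * μ * Real.log 2) ≤
      (Real.exp (-μ / 14) * Fintype.card (κ → α)) * Real.exp (2 * μ * Real.log 2) := by
    calc _ ≤ Fintype.card (κ → α) * Real.exp μ := h4
      _ ≤ Fintype.card (κ → α) * (Real.exp (-μ / 14) * Real.exp (2 * μ * Real.log 2)) :=
          mul_le_mul_of_nonneg_left h5 (by positivity)
      _ = _ := by ring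
  exact le_of_mul_le_mul_right h6 (Real.exp_pos _)

/-- Chernoff, lower tail -/
theorem lower_tail [Nonempty α] (S : Finset κ) (T : Finset α) (μ : ℝ) (hμ0 : 0 ≤ μ)
    (hμ : μ ≤ 2 * ((T.card : ℝ) / Fintype.card α * S.card)) :
    ((univ.filter (fun ω : κ → α => 4 * (cnt S T ω : ℝ) < μ)).card : ℝ) ≤
      Real.exp (-μ / 14) * Fintype.card (κ → α) := by
  have h1 := mgf_le (κ := κ) (α := α) S T (1 / 2) (by norm_num)
  have h2 : ((univ.filter (fun ω : κ → α => 4 * (cnt S T ω : ℝ) < μ)).card : ℝ) *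
      Real.exp (-(μ / 4) * Real.log 2) ≤ ∑ ω : κ → α, (1 / 2 : ℝ) ^ cnt S T ω := by
    calc ((univ.filter (fun ω : κ → α => 4 * (cnt S T ω : ℝ) < μ)).card : ℝ) *
        Real.exp (-(μ / 4) * Real.log 2)
        = ∑ ω ∈ univ.filter (fun ω : κ → α => 4 * (cnt S T ω : ℝ) < μ),
            Real.exp (-(μ / 4) * Real.log 2) := by rw [sum_const, nsmul_eq_mul]
      _ ≤ ∑ ω ∈ univ.filter (fun ω : κ → α => 4 * (cnt S T ω : ℝ) < μ),
            (1 / 2 : ℝ) ^ cnt S T ω := by
          refine sum_le_sum fun ω hω => ?_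
          rw [mem_filter] at hω
          have e1 : (1 / 2 : ℝ) ^ cnt S T ω = Real.exp ((cnt S T ω : ℝ) * (-Real.log 2)) := by
            rw [Real.exp_nat_mul, Real.exp_neg, Real.exp_log (by norm_num)]
            norm_num
          rw [e1]
          apply Real.exp_le_exp.2
          have h3 : (cnt S T ω : ℝ) ≤ μ / 4 := by linarith [hω.2]
          have h4 := mul_le_mul_of_nonneg_right h3 (Real.log_nonneg (show (1 : ℝ) ≤ 2 by norm_num))
          linarith
      _ ≤ _ := sum_le_sum_of_subset_of_nonneg (filter_subset _ _) fun ω _ _ => by positivity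
  have h3 : Real.exp (T.card / Fintype.card α * S.card * ((1 / 2 : ℝ) - 1)) ≤
      Real.exp (-(μ / 4)) := by
    apply Real.exp_le_exp.2
    linarith
  have h4 : ((univ.filter (fun ω : κ → α => 4 * (cnt S T ω : ℝ) < μ)).card : ℝ) *
      Real.exp (-(μ / 4) * Real.log 2) ≤ Fintype.card (κ → α) * Real.exp (-(μ / 4)) :=
    h2.trans (h1.trans (mul_le_mul_of_nonneg_left h3 (by positivity)))
  have h5 : Real.exp (-μ / 14) * Real.exp (-(μ / 4) * Real.log 2) ≥ Real.exp (-(μ / 4)) := by
    rw [← Real.exp_add]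
    apply Real.exp_le_exp.2
    have := Real.log_two_lt_d9
    nlinarith
  have h6 : ((univ.filter (fun ω : κ → α => 4 * (cnt S T ω : ℝ) < μ)).card : ℝ) *
      Real.exp (-(μ / 4) * Real.log 2) ≤
      (Real.exp (-μ / 14) * Fintype.card (κ → α)) * Real.exp (-(μ / 4) * Real.log 2) := by
    calc _ ≤ Fintype.card (κ → α) * Real.exp (-(μ / 4)) := h4
      _ ≤ Fintype.card (κ → α) * (Real.exp (-μ / 14) * Real.exp (-(μ / 4) * Real.log 2)) :=
          mul_le_mul_of_nonneg_left h5 (by positivity)
      _ = _ := by ring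
  exact le_of_mul_le_mul_right h6 (Real.exp_pos _)

end mgf

open Classical in
/-- Nested sets of vertices which split all the sets `N v` evenly. -/
theorem partition {V : Type} [Fintype V] (N : V → Finset V) (D r J : ℕ) (hD : 0 < D)
    (hr : 0 < r) (hN : ∀ v, (N v).card ≤ D)
    (hN' : ∀ w, (univ.filter (fun v => w ∈ N v)).card ≤ D)
    (hP : 4 * ((J : ℝ) + 1) * (D : ℝ) ^ 2 * Real.exp 1 ≤ Real.exp ((D : ℝ) / (r : ℝ) ^ J / 14)) :
    ∃ U : ℕ → Finset V, U 0 = univ ∧ (∀ i j, i ≤ j → U j ⊆ U i) ∧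
      (∀ j ≤ J, ∀ v, r ^ j * (N v ∩ U j).card ≤ 2 * D) ∧
      (∀ j ≤ J, ∀ v, D ≤ 2 * (N v).card → D ≤ 4 * (r ^ j * (N v ∩ U j).card)) := by
  have hR : 0 < r ^ J := pow_pos hr J
  have : Nonempty (Fin (r ^ J)) := ⟨⟨0, hR⟩⟩
  have hDR : (0 : ℝ) < D := by exact_mod_cast hD
  have hrR : (0 : ℝ) < r := by exact_mod_cast hr
  -- the sets of labels
  let T : ℕ → Finset (Fin (r ^ J)) := fun j => univ.filter (fun i => i.1 < r ^ (J - j))
  have hTc : ∀ j ≤ J, (T j).card = r ^ (J - j) := by
    intro j hj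
    have h1 : r ^ (J - j) ≤ r ^ J := Nat.pow_le_pow_right hr (Nat.sub_le _ _)
    rw [← Fintype.card_fin (r ^ (J - j)), ← card_univ]
    symm
    refine card_bij (fun i _ => ⟨i.1, lt_of_lt_of_le i.2 h1⟩) ?_ ?_ ?_
    · intro i _
      simp [T]
    · intro i _ i' _ h
      rw [Fin.mk.injEq] at h
      exact Fin.ext h
    · intro i hi
      simp only [T, mem_filter, mem_univ, true_and] at hi
      exact ⟨⟨i.1, hi⟩, mem_univ _, rfl⟩
  have hTp : ∀ j ≤ J, ((T j).card : ℝ) / Fintype.card (Fin (r ^ J)) = 1 / (r : ℝ) ^ j := by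
    intro j hj
    rw [hTc j hj, Fintype.card_fin]
    push_cast
    rw [div_eq_div_iff (by positivity) (by positivity), one_mul, ← pow_add, Nat.sub_add_cancel hj]
  -- the events
  let B1 : ℕ → V → Finset (V → Fin (r ^ J)) := fun j v =>
    univ.filter (fun ω => 2 * ((D : ℝ) / (r : ℝ) ^ j) < cnt (N v) (T j) ω)
  let B2 : ℕ → V → Finset (V → Fin (r ^ J)) := fun j v =>
    univ.filter (fun ω => 4 * (cnt (N v) (T j) ω : ℝ) < (D : ℝ) / (r : ℝ) ^ j)
  let Bd : V → Finset (V → Fin (r ^ J)) := fun v =>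
    (range (J + 1)).biUnion (fun j => B1 j v ∪ (if D ≤ 2 * (N v).card then B2 j v else ∅))
  have hcnt : ∀ j v (ω ω' : V → Fin (r ^ J)), (∀ k ∈ N v, ω k = ω' k) →
      cnt (N v) (T j) ω = cnt (N v) (T j) ω' := by
    intro j v ω ω' h
    unfold cnt
    congr 1
    refine filter_congr fun k hk => ?_
    rw [h k hk]
  have hdep : ∀ v, DepOn (Bd v) (N v) := by
    intro v ω ω' h
    simp only [Bd, mem_biUnion, mem_union, B1, B2]
    refine exists_congr fun j => and_congr_right fun _ => ?_
    split_ifs with hc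
    · rw [mem_filter, mem_filter, mem_filter, mem_filter, hcnt j v ω ω' h]
      simp
    · rw [mem_filter, mem_filter, hcnt j v ω ω' h]
      simp
  set Om : ℝ := ((Fintype.card (V → Fin (r ^ J)) : ℕ) : ℝ) with hOm
  have hOm0 : 0 < Om := by
    rw [hOm]
    exact_mod_cast Fintype.card_pos
  have hmono : ∀ j ≤ J, Real.exp (-((D : ℝ) / (r : ℝ) ^ j) / 14) ≤
      Real.exp (-((D : ℝ) / (r : ℝ) ^ J) / 14) := by
    intro j hj
    apply Real.exp_le_exp.2
    have h1 : (D : ℝ) / (r : ℝ) ^ J ≤ (D : ℝ) / (r : ℝ) ^ j := by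
      apply div_le_div_of_nonneg_left hDR.le (by positivity)
      exact_mod_cast Nat.pow_le_pow_right hr hj
    linarith
  have hB1 : ∀ j ≤ J, ∀ v, ((B1 j v).card : ℝ) ≤
      Real.exp (-((D : ℝ) / (r : ℝ) ^ J) / 14) * Om := by
    intro j hj v
    have h1 := upper_tail (κ := V) (α := Fin (r ^ J)) (N v) (T j) ((D : ℝ) / (r : ℝ) ^ j) (by
      rw [hTp j hj, one_div_mul_eq_div]
      apply div_le_div_of_nonneg_right _ (by positivity)
      exact_mod_cast hN v)
    refine h1.trans ?_
    exact mul_le_mul_of_nonneg_right (hmono j hj) hOm0.le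
  have hB2 : ∀ j ≤ J, ∀ v, D ≤ 2 * (N v).card → ((B2 j v).card : ℝ) ≤
      Real.exp (-((D : ℝ) / (r : ℝ) ^ J) / 14) * Om := by
    intro j hj v hv
    have h1 := lower_tail (κ := V) (α := Fin (r ^ J)) (N v) (T j) ((D : ℝ) / (r : ℝ) ^ j)
      (by positivity) (by
      rw [hTp j hj, one_div_mul_eq_div, ← mul_div_assoc]
      apply div_le_div_of_nonneg_right _ (by positivity)
      exact_mod_cast hv)
    refine h1.trans ?_
    exact mul_le_mul_of_nonneg_right (hmono j hj) hOm0.le
  have hBd : ∀ v, ((Bd v).card : ℝ) ≤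
      2 * ((J : ℝ) + 1) * Real.exp (-((D : ℝ) / (r : ℝ) ^ J) / 14) * Om := by
    intro v
    have h1 : ((Bd v).card : ℝ) ≤ ∑ j ∈ range (J + 1),
        ((B1 j v ∪ (if D ≤ 2 * (N v).card then B2 j v else ∅)).card : ℝ) := by
      exact_mod_cast card_biUnion_le
    refine h1.trans ?_
    have h2 : ∀ j ∈ range (J + 1),
        ((B1 j v ∪ (if D ≤ 2 * (N v).card then B2 j v else ∅)).card : ℝ) ≤
          2 * (Real.exp (-((D : ℝ) / (r : ℝ) ^ J) / 14) * Om) := by
      intro j hj
      have hj' : j ≤ J := by rw [mem_range] at hj; omega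
      have h3 : ((B1 j v ∪ (if D ≤ 2 * (N v).card then B2 j v else ∅)).card : ℝ) ≤
          (B1 j v).card + (if D ≤ 2 * (N v).card then B2 j v else ∅).card := by
        exact_mod_cast card_union_le _ _
      have h4 := hB1 j hj' v
      have h5 : (((if D ≤ 2 * (N v).card then B2 j v else ∅) : Finset (V → Fin (r ^ J))).card : ℝ)
          ≤ Real.exp (-((D : ℝ) / (r : ℝ) ^ J) / 14) * Om := by
        split_ifs with hc
        · exact hB2 j hj' v hc
        · simp only [card_empty, Nat.cast_zero]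
          positivity
      linarith
    refine (sum_le_sum h2).trans ?_
    rw [sum_const, card_range, nsmul_eq_mul]
    push_cast
    apply le_of_eq
    ring
  obtain ⟨ω, hω⟩ := lll_exp Bd N hdep (fun _ => 1 / (2 * (D : ℝ) ^ 2)) (fun _ => by positivity)
    (fun _ => by
      have h1 : (1 : ℝ) ≤ (D : ℝ) ^ 2 := by
        have : (1 : ℝ) ≤ D := by exact_mod_cast hD
        nlinarith
      rw [div_le_div_iff₀ (by positivity) (by norm_num)]
      linarith) (1 / (2 * (D : ℝ))) (by
      intro k
      rw [sum_const, nsmul_eq_mul]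
      have h1 : ((univ.filter (fun j => k ∈ N j)).card : ℝ) ≤ D := by exact_mod_cast hN' k
      calc ((univ.filter (fun j => k ∈ N j)).card : ℝ) * (1 / (2 * (D : ℝ) ^ 2))
          ≤ D * (1 / (2 * (D : ℝ) ^ 2)) := mul_le_mul_of_nonneg_right h1 (by positivity)
        _ = 1 / (2 * (D : ℝ)) := by field_simp) (by
      intro v
      refine (hBd v).trans ?_
      rw [← hOm]
      apply mul_le_mul_of_nonneg_right _ hOm0.le
      have h1 : Real.exp (-1) ≤ Real.exp (-(2 * (((N v).card : ℝ) * (1 / (2 * (D : ℝ)))))) := by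
        apply Real.exp_le_exp.2
        have h2 : ((N v).card : ℝ) ≤ D := by exact_mod_cast hN v
        have h3 : 2 * (((N v).card : ℝ) * (1 / (2 * (D : ℝ)))) = (N v).card / D := by
          field_simp
        rw [h3]
        have h4 : ((N v).card : ℝ) / D ≤ 1 := by
          rw [div_le_one hDR]
          exact h2
        linarith
      have h2 : 2 * ((J : ℝ) + 1) * Real.exp (-((D : ℝ) / (r : ℝ) ^ J) / 14) ≤
          1 / (2 * (D : ℝ) ^ 2) * Real.exp (-1) := by
        have h3 : Real.exp (-((D : ℝ) / (r : ℝ) ^ J) / 14) =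
            (Real.exp ((D : ℝ) / (r : ℝ) ^ J / 14))⁻¹ := by
          rw [← Real.exp_neg]
          congr 1
          ring
        rw [h3, Real.exp_neg]
        have h4 : 0 < Real.exp ((D : ℝ) / (r : ℝ) ^ J / 14) := Real.exp_pos _
        have h5 : 0 < Real.exp (1 : ℝ) := Real.exp_pos _
        rw [← div_eq_mul_inv, div_mul_eq_mul_div, one_mul, div_le_div_iff₀ h4 (by positivity)]
        have h6 : (Real.exp 1)⁻¹ * Real.exp 1 = 1 := inv_mul_cancel₀ h5.ne'
        calc 2 * ((J : ℝ) + 1) * (2 * (D : ℝ) ^ 2)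
            = (Real.exp 1)⁻¹ * (4 * ((J : ℝ) + 1) * (D : ℝ) ^ 2 * Real.exp 1) := by
              field_simp
              ring
          _ ≤ (Real.exp 1)⁻¹ * Real.exp ((D : ℝ) / (r : ℝ) ^ J / 14) :=
              mul_le_mul_of_nonneg_left hP (by positivity)
      exact h2.trans (mul_le_mul_of_nonneg_left h1 (by positivity)))
  -- the sets
  have hmem : ∀ v, ∀ j ≤ J, ω ∉ B1 j v ∧ (D ≤ 2 * (N v).card → ω ∉ B2 j v) := by
    intro v j hj
    have h1 := hω v
    simp only [Bd, mem_biUnion, not_exists, not_and, mem_union, not_or] at h1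
    have h2 := h1 j (mem_range.2 (by omega))
    refine ⟨h2.1, fun hc => ?_⟩
    have h3 := h2.2
    rwa [if_pos hc] at h3
  refine ⟨fun j => if j = 0 then univ else univ.filter (fun w => ω w ∈ T j), by simp, ?_, ?_, ?_⟩
  · intro i j hij
    by_cases hi : i = 0
    · simp [hi]
    · have hj : j ≠ 0 := by omega
      simp only [hi, hj, if_false]
      intro w hw
      simp only [T, mem_filter, mem_univ, true_and] at hw ⊢
      exact lt_of_lt_of_le hw (Nat.pow_le_pow_right hr (by omega))
  · intro j hj v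
    have h1 := (hmem v j hj).1
    simp only [B1, mem_filter, mem_univ, true_and, not_lt] at h1
    by_cases hj0 : j = 0
    · subst hj0
      simp only [if_true, pow_zero, one_mul, inter_univ]
      have := hN v
      omega
    · simp only [hj0, if_false]
      have h2 : N v ∩ univ.filter (fun w => ω w ∈ T j) = (N v).filter (fun w => ω w ∈ T j) := by
        ext w
        simp
      rw [h2]
      have h3 : ((r ^ j * ((N v).filter (fun w => ω w ∈ T j)).card : ℕ) : ℝ) ≤ ((2 * D : ℕ) : ℝ) := by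
        push_cast
        have h4 : (((N v).filter (fun w => ω w ∈ T j)).card : ℝ) ≤ 2 * ((D : ℝ) / (r : ℝ) ^ j) := h1
        calc (r : ℝ) ^ j * (((N v).filter (fun w => ω w ∈ T j)).card : ℝ)
            ≤ (r : ℝ) ^ j * (2 * ((D : ℝ) / (r : ℝ) ^ j)) :=
              mul_le_mul_of_nonneg_left h4 (by positivity)
          _ = 2 * D := by field_simp
      exact_mod_cast h3
  · intro j hj v hv
    have h1 := (hmem v j hj).2 hv
    simp only [B2, mem_filter, mem_univ, true_and, not_lt] at h1
    by_cases hj0 : j = 0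
    · subst hj0
      simp only [if_true, pow_zero, one_mul, inter_univ]
      omega
    · simp only [hj0, if_false]
      have h2 : N v ∩ univ.filter (fun w => ω w ∈ T j) = (N v).filter (fun w => ω w ∈ T j) := by
        ext w
        simp
      rw [h2]
      have h3 : ((D : ℕ) : ℝ) ≤ ((4 * (r ^ j * ((N v).filter (fun w => ω w ∈ T j)).card) : ℕ) : ℝ) := by
        push_cast
        have h4 : (D : ℝ) / (r : ℝ) ^ j ≤ 4 * (((N v).filter (fun w => ω w ∈ T j)).card : ℝ) := h1
        rw [div_le_iff₀ (by positivity)] at h4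
        linarith
      exact_mod_cast h3

end Pool.Agent.D0H38.TC
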