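import Mathlib
import Pool.Agent.D0H38.TC.Count
import Pool.Agent.D0H38.TC.Part

/-!
# Extending a vertex colouring such that few neighbours have their forbidden colour
-/

set_option autoImplicit false

namespace Pool.Agent.D0H38.TC

open Finset

variable {V : Type} [Fintype V]

open Classical in
/-- the neighbours outside `W` -/
noncomputable def nb (G : SimpleGraph V) (W : Finset V) (v : V) : Finset V :=
  univ.filter (fun w => G.Adj v w ∧ w ∉ W)

open Classical in
/-- `f` extends `f0` to all the vertices outside `X`, properly, with the colours `0, …, D` outside `W`, and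
each vertex `v` has at most `q` coloured neighbours `w` outside `W` with the colour `b v w`. -/
structure Good (G : SimpleGraph V) (W : Finset V) (f0 : V → ℕ) (b : V → V → ℕ)
    (D : ℕ) (X : Finset V) (q : ℕ) (f : V → ℕ) : Prop where
  ext : ∀ u ∈ W, f u = f0 u
  proper : ∀ u v, (u ∈ W ∨ u ∉ X) → (v ∈ W ∨ v ∉ X) → G.Adj u v → f u ≠ f v
  small : ∀ u, u ∉ W → u ∉ X → f u < D + 1
  few : ∀ v, ((nb G W v).filter (fun w => w ∉ X ∧ f w = b v w)).card ≤ q

open Classical in
theorem nb_deg {G : SimpleGraph V} {W : Finset V} {D : ℕ}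
    (hdeg : ∀ v, (univ.filter (fun w => G.Adj v w)).card ≤ D) :
    (∀ v, (nb G W v).card ≤ D) ∧ ∀ w, (univ.filter (fun v => w ∈ nb G W v)).card ≤ D := by
  constructor
  · intro v
    refine (card_le_card ?_).trans (hdeg v)
    intro w hw
    rw [nb, mem_filter] at hw
    rw [mem_filter]
    exact ⟨hw.1, hw.2.1⟩
  · intro w
    refine (card_le_card ?_).trans (hdeg w)
    intro v hv
    rw [mem_filter, nb, mem_filter] at hv
    rw [mem_filter]
    exact ⟨hv.1, hv.2.2.1.symm⟩

open Classical in
theorem good_step (G : SimpleGraph V) (W : Finset V) (f0 : V → ℕ) (b : V → V → ℕ) (D k q : ℕ)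
    (hdeg : ∀ v, (univ.filter (fun w => G.Adj v w)).card ≤ D) (X Y : Finset V) (hYX : Y ⊆ X)
    (β a : ℕ) (hβ0 : 0 < β)
    (hβ : ∀ w, w ∉ W → 2 * β + (univ.filter (fun u => G.Adj w u)).card ≤
      D + 1 + (nb G W w ∩ Y).card)
    (ha : ∀ v, (nb G W v ∩ X).card ≤ a) (hk : D * a.choose k ≤ β ^ (k + 1)) (f : V → ℕ)
    (hf : Good G W f0 b D X q f) : ∃ f', Good G W f0 b D Y (q + k) f' := by
  set A : Finset V := X.filter (fun w => w ∉ Y ∧ w ∉ W) with hA
  set C : V → Finset V := fun w => univ.filter (fun u => G.Adj w u ∧ (u ∈ W ∨ u ∉ X)) with hC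
  set L : V → Finset ℕ := fun w => range (D + 1) \ (C w).image f with hL
  have hAmem : ∀ w, w ∈ A ↔ w ∈ X ∧ w ∉ Y ∧ w ∉ W := by
    intro w
    rw [hA, mem_filter]
  have hsplit : ∀ w, (C w).card + (A.filter (fun u => G.Adj u w)).card + (nb G W w ∩ Y).card ≤
      (univ.filter (fun u => G.Adj w u)).card := by
    intro w
    rw [← card_union_of_disjoint, ← card_union_of_disjoint]
    · refine card_le_card ?_
      intro u hu
      rw [mem_union, mem_union] at hu
      rw [mem_filter]
      refine ⟨mem_univ _, ?_⟩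
      rcases hu with (h | h) | h
      · exact (mem_filter.1 h).2.1
      · exact (mem_filter.1 h).2.symm
      · rw [mem_inter, nb, mem_filter] at h
        exact h.1.2.1
    · rw [disjoint_left]
      intro u hu hu'
      rw [mem_union, mem_filter, mem_filter, hAmem] at hu
      rw [mem_inter, nb, mem_filter] at hu'
      rcases hu with h | h
      · rcases h.2.2 with h' | h'
        · exact hu'.1.2.2 h'
        · exact h' (hYX hu'.2)
      · exact h.1.2.1 hu'.2
    · rw [disjoint_left]
      intro u hu hu'
      rw [mem_filter] at hu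
      rw [mem_filter, hAmem] at hu'
      rcases hu.2.2 with h' | h'
      · exact hu'.1.2.2 h'
      · exact h' hu'.1.1
  obtain ⟨h, h1, h2, h3⟩ := class_colour G A L b (fun v => nb G W v) D a k β hβ0 (by
      intro w hw
      have e1 := hsplit w
      have e2 := hβ w ((hAmem w).1 hw).2.2
      have e3 : D + 1 - (C w).card ≤ (L w).card := by
        have e4 := le_card_sdiff ((C w).image f) (range (D + 1))
        rw [card_range] at e4
        have e5 := card_image_le (s := C w) (f := f)
        have e6 : D + 1 - (C w).card ≤ D + 1 - ((C w).image f).card := Nat.sub_le_sub_left e5 _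
        exact e6.trans e4
      have e7 := hdeg w
      omega) (by
      intro v
      refine (card_le_card ?_).trans (ha v)
      intro w hw
      rw [mem_inter] at hw ⊢
      exact ⟨hw.1, ((hAmem w).1 hw.2).1⟩) (fun w _ => (nb_deg hdeg).2 w) hk
  have hvA : ∀ v, (v ∈ W ∨ v ∉ Y) → v ∉ A → (v ∈ W ∨ v ∉ X) := by
    intro v hv hvA
    rw [hAmem] at hvA
    tauto
  have hne : ∀ u ∈ A, ∀ v, (v ∈ W ∨ v ∉ X) → G.Adj u v → h u ≠ f v := by
    intro u hu v hv huv heq
    have e1 := h1 u hu
    rw [hL, mem_sdiff] at e1
    apply e1.2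
    rw [mem_image]
    exact ⟨v, mem_filter.2 ⟨mem_univ _, huv, hv⟩, heq.symm⟩
  refine ⟨fun w => if w ∈ A then h w else f w, ?_, ?_, ?_, ?_⟩
  · intro u hu
    have : u ∉ A := by
      rw [hAmem]
      tauto
    simp only [this, if_false]
    exact hf.ext u hu
  · intro u v hu hv huv
    by_cases hua : u ∈ A
    · by_cases hva : v ∈ A
      · simp only [hua, hva, if_true]
        exact h2 u hua v hva huv
      · simp only [hua, hva, if_true, if_false]
        exact hne u hua v (hvA v hv hva) huv
    · by_cases hva : v ∈ A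
      · simp only [hua, hva, if_true, if_false]
        exact (hne v hva u (hvA u hu hua) huv.symm).symm
      · simp only [hua, hva, if_false]
        exact hf.proper u v (hvA u hu hua) (hvA v hv hva) huv
  · intro u hu hu'
    by_cases hua : u ∈ A
    · simp only [hua, if_true]
      have e1 := h1 u hua
      rw [hL, mem_sdiff, mem_range] at e1
      exact e1.1
    · simp only [hua, if_false]
      rcases hvA u (Or.inr hu') hua with h' | h'
      · exact absurd h' hu
      · exact hf.small u hu h'
  · intro v
    have e1 : (nb G W v).filter (fun w => w ∉ Y ∧ (if w ∈ A then h w else f w) = b v w) ⊆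
        (nb G W v).filter (fun w => w ∉ X ∧ f w = b v w) ∪
          ((nb G W v ∩ A).filter (fun w => h w = b v w)) := by
      intro w hw
      rw [mem_filter] at hw
      rw [mem_union, mem_filter, mem_filter, mem_inter]
      obtain ⟨hw1, hw2, hw3⟩ := hw
      by_cases hwa : w ∈ A
      · rw [if_pos hwa] at hw3
        exact Or.inr ⟨⟨hw1, hwa⟩, hw3⟩
      · rw [if_neg hwa] at hw3
        left
        refine ⟨hw1, ?_, hw3⟩
        rcases hvA w (Or.inr hw2) hwa with h' | h'
        · rw [nb, mem_filter] at hw1
          exact absurd h' hw1.2.2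
        · exact h'
    refine (card_le_card e1).trans ((card_union_le _ _).trans ?_)
    exact Nat.add_le_add (hf.few v) (h3 v)

open Classical in
theorem good_final (G : SimpleGraph V) (W : Finset V) (f0 : V → ℕ) (b : V → V → ℕ) (D m q K R : ℕ)
    (hW : ∀ v, (univ.filter (fun w => G.Adj v w ∧ w ∈ W)).card ≤ m) (X : Finset V)
    (hR : ∀ v, (nb G W v ∩ X).card ≤ R) (hK : D + m + R + 3 ≤ K)
    (hf0 : ∀ u ∈ W, f0 u < K) (hb : ∀ v w, b v w < D + 1) (f : V → ℕ)
    (hf : Good G W f0 b D X q f) :
    ∃ f' : V → ℕ, (∀ v, f' v < K) ∧ (∀ u ∈ W, f' u = f0 u) ∧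
      (∀ u v, G.Adj u v → f' u ≠ f' v) ∧
      ∀ v, ((nb G W v).filter (fun w => f' w = b v w)).card ≤ q := by
  set A : Finset V := X.filter (fun w => w ∉ W) with hA
  set C : V → Finset V := fun w => univ.filter (fun u => G.Adj w u ∧ u ∈ W) with hC
  set L : V → Finset ℕ := fun w => Ico (D + 1) K \ (C w).image f with hL
  have hAmem : ∀ w, w ∈ A ↔ w ∈ X ∧ w ∉ W := by
    intro w
    rw [hA, mem_filter]
  obtain ⟨h, h1, h2, -⟩ := class_colour G A L b (fun _ => (∅ : Finset V)) D 0 1 1 (by norm_num) (by
      intro w hw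
      have e1 : (A.filter (fun u => G.Adj u w)).card ≤ R := by
        refine (card_le_card ?_).trans (hR w)
        intro u hu
        rw [mem_filter, hAmem] at hu
        rw [mem_inter, nb, mem_filter]
        exact ⟨⟨mem_univ _, hu.2.symm, hu.1.2⟩, hu.1.1⟩
      have e3 : K - (D + 1) - m ≤ (L w).card := by
        have e4 := le_card_sdiff ((C w).image f) (Ico (D + 1) K)
        rw [Nat.card_Ico] at e4
        have e5 := (card_image_le (s := C w) (f := f)).trans (hW w)
        have e6 : K - (D + 1) - m ≤ K - (D + 1) - ((C w).image f).card := Nat.sub_le_sub_left e5 _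
        exact e6.trans e4
      omega) (by intro v; simp) (by intro w _; simp) (by simp)
  have hvA : ∀ v, v ∉ A → (v ∈ W ∨ v ∉ X) := by
    intro v hvA
    rw [hAmem] at hvA
    tauto
  have hhA : ∀ u ∈ A, D + 1 ≤ h u ∧ h u < K := by
    intro u hu
    have e1 := h1 u hu
    rw [hL, mem_sdiff, mem_Ico] at e1
    exact e1.1
  have hne : ∀ u ∈ A, ∀ v, v ∉ A → G.Adj u v → h u ≠ f v := by
    intro u hu v hv huv heq
    by_cases hvW : v ∈ W
    · have e1 := h1 u hu
      rw [hL, mem_sdiff] at e1
      apply e1.2
      rw [mem_image]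
      exact ⟨v, mem_filter.2 ⟨mem_univ _, huv, hvW⟩, heq.symm⟩
    · rcases hvA v hv with h' | h'
      · exact hvW h'
      · have e1 := hf.small v hvW h'
        have e2 := (hhA u hu).1
        omega
  refine ⟨fun w => if w ∈ A then h w else f w, ?_, ?_, ?_, ?_⟩
  · intro v
    by_cases hva : v ∈ A
    · simp only [hva, if_true]
      exact (hhA v hva).2
    · simp only [hva, if_false]
      by_cases hvW : v ∈ W
      · rw [hf.ext v hvW]
        exact hf0 v hvW
      · rcases hvA v hva with h' | h'
        · exact absurd h' hvW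
        · have e1 := hf.small v hvW h'
          omega
  · intro u hu
    have : u ∉ A := by
      rw [hAmem]
      tauto
    simp only [this, if_false]
    exact hf.ext u hu
  · intro u v huv
    by_cases hua : u ∈ A
    · by_cases hva : v ∈ A
      · simp only [hua, hva, if_true]
        exact h2 u hua v hva huv
      · simp only [hua, hva, if_true, if_false]
        exact hne u hua v hva huv
    · by_cases hva : v ∈ A
      · simp only [hua, hva, if_true, if_false]
        exact (hne v hva u hua huv.symm).symm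
      · simp only [hua, hva, if_false]
        exact hf.proper u v (hvA u hua) (hvA v hva) huv
  · intro v
    refine (card_le_card ?_).trans (hf.few v)
    intro w hw
    rw [mem_filter] at hw ⊢
    obtain ⟨hw1, hw2⟩ := hw
    replace hw2 : (if w ∈ A then h w else f w) = b v w := hw2
    by_cases hwa : w ∈ A
    · rw [if_pos hwa] at hw2
      have e1 := (hhA w hwa).1
      have e2 := hb v w
      omega
    · rw [if_neg hwa] at hw2
      refine ⟨hw1, ?_, hw2⟩
      rcases hvA w hwa with h' | h'
      · rw [nb, mem_filter] at hw1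
        exact absurd h' hw1.2.2
      · exact h'

/-- The condition on `k` for a single class. -/
theorem choose_bound (D r k a β : ℕ) (hβ0 : 0 < β) (hk : D * (32 * r) ^ k ≤ k.factorial)
    (ha : a ≤ 32 * r * β) : D * a.choose k ≤ β ^ (k + 1) := by
  have h1 : k.factorial * a.choose k ≤ a ^ k := by
    rw [← Nat.descFactorial_eq_factorial_mul_choose]
    exact Nat.descFactorial_le_pow a k
  have h2 : a ^ k ≤ (32 * r) ^ k * β ^ k := by
    rw [← mul_pow]
    exact Nat.pow_le_pow_left ha k
  have h3 : k.factorial * (D * a.choose k) ≤ k.factorial * β ^ k := by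
    calc k.factorial * (D * a.choose k) = D * (k.factorial * a.choose k) := by ring
      _ ≤ D * a ^ k := Nat.mul_le_mul_left _ h1
      _ ≤ D * ((32 * r) ^ k * β ^ k) := Nat.mul_le_mul_left _ h2
      _ = (D * (32 * r) ^ k) * β ^ k := by ring
      _ ≤ k.factorial * β ^ k := Nat.mul_le_mul_right _ hk
  have h4 : D * a.choose k ≤ β ^ k := Nat.le_of_mul_le_mul_left h3 k.factorial_pos
  refine h4.trans ?_
  exact Nat.pow_le_pow_right hβ0 (Nat.le_succ k)

open Classical in
/-- The vertex colouring. -/
theorem vert (G : SimpleGraph V) (W : Finset V) (f0 : V → ℕ) (b : V → V → ℕ) (D m r J k K : ℕ)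
    (hr : 0 < r) (hdeg : ∀ v, (univ.filter (fun w => G.Adj v w)).card ≤ D)
    (hW : ∀ v, (univ.filter (fun w => G.Adj v w ∧ w ∈ W)).card ≤ m)
    (hf0 : ∀ u ∈ W, f0 u < K) (hf0' : ∀ u ∈ W, ∀ v ∈ W, G.Adj u v → f0 u ≠ f0 v)
    (hb : ∀ v w, b v w < D + 1) (hm : 4 * m ≤ D) (hJ : 8 * r ^ J ≤ D)
    (hk : D * (32 * r) ^ k ≤ k.factorial)
    (hP : 4 * ((J : ℝ) + 1) * (D : ℝ) ^ 2 * Real.exp 1 ≤ Real.exp ((D : ℝ) / (r : ℝ) ^ J / 14))
    (hK : D + m + 2 * D / r ^ J + 3 ≤ K) :
    ∃ f : V → ℕ, (∀ v, f v < K) ∧ (∀ u ∈ W, f u = f0 u) ∧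
      (∀ u v, G.Adj u v → f u ≠ f v) ∧
      ∀ v, ((nb G W v).filter (fun w => f w = b v w)).card ≤ J * k := by
  have hD : 0 < D := by
    have := pow_pos hr J
    omega
  obtain ⟨hN, hN'⟩ := nb_deg (W := W) hdeg
  obtain ⟨U, hU0, hUm, hU1, hU2⟩ := partition (nb G W) D r J hD hr hN hN' hP
  have key : ∀ j, j ≤ J → ∃ f, Good G W f0 b D (U j) (j * k) f := by
    intro j
    induction j with
    | zero =>
      intro _
      refine ⟨f0, fun u _ => rfl, ?_, ?_, ?_⟩
      · intro u v hu hv huv
        rw [hU0] at hu hv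
        simp only [mem_univ, not_true_eq_false, or_false] at hu hv
        exact hf0' u hu v hv huv
      · intro u _ hu
        rw [hU0] at hu
        exact absurd (mem_univ u) hu
      · intro v
        rw [hU0]
        simp
    | succ j ih =>
      intro hj
      obtain ⟨f, hf⟩ := ih (by omega)
      have hrj : 0 < r ^ (j + 1) := pow_pos hr _
      have hrj' : 0 < r ^ j := pow_pos hr _
      have hrJ : r ^ (j + 1) ≤ r ^ J := Nat.pow_le_pow_right hr hj
      have hβ0 : 0 < D / (8 * r ^ (j + 1)) := by
        apply Nat.div_pos _ (by omega)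
        omega
      have hβ1 : D / (8 * r ^ (j + 1)) * (8 * r ^ (j + 1)) ≤ D := Nat.div_mul_le_self _ _
      have hβ2 : D < 2 * (D / (8 * r ^ (j + 1)) * (8 * r ^ (j + 1))) := by
        have e1 := Nat.lt_div_mul_add (a := D) (b := 8 * r ^ (j + 1)) (by omega)
        have e2 : 8 * r ^ (j + 1) ≤ D / (8 * r ^ (j + 1)) * (8 * r ^ (j + 1)) :=
          Nat.le_mul_of_pos_left _ hβ0
        omega
      generalize hβ : D / (8 * r ^ (j + 1)) = β at hβ0 hβ1 hβ2
      have hstep := good_step G W f0 b D k (j * k) hdeg (U j) (U (j + 1)) (hUm j (j + 1) (by omega))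
        β (2 * D / r ^ j) hβ0 (by
          intro w hw
          have hdeg2 : (univ.filter (fun u => G.Adj w u)).card ≤ (nb G W w).card + m := by
            have e1 : (univ.filter (fun u => G.Adj w u)) ⊆ nb G W w ∪
                univ.filter (fun u => G.Adj w u ∧ u ∈ W) := by
              intro u hu
              rw [mem_filter] at hu
              rw [mem_union, nb, mem_filter, mem_filter]
              by_cases huW : u ∈ W
              · exact Or.inr ⟨mem_univ _, hu.2, huW⟩
              · exact Or.inl ⟨mem_univ _, hu.2, huW⟩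
            have e2 := card_le_card e1
            have e3 := card_union_le (nb G W w) (univ.filter (fun u => G.Adj w u ∧ u ∈ W))
            have e4 := hW w
            omega
          have hdw := hdeg w
          by_cases hc : D ≤ 2 * (nb G W w).card
          · have e1 := hU2 (j + 1) hj w hc
            have e2 : (2 * β) * (4 * r ^ (j + 1)) ≤ (nb G W w ∩ U (j + 1)).card *
                (4 * r ^ (j + 1)) := by
              calc (2 * β) * (4 * r ^ (j + 1)) = β * (8 * r ^ (j + 1)) := by ring
                _ ≤ D := hβ1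
                _ ≤ 4 * (r ^ (j + 1) * (nb G W w ∩ U (j + 1)).card) := e1
                _ = _ := by ring
            have e3 : 2 * β ≤ (nb G W w ∩ U (j + 1)).card :=
              Nat.le_of_mul_le_mul_right e2 (by omega)
            omega
          · have e1 : β * 8 ≤ D := by
              refine le_trans ?_ hβ1
              apply Nat.mul_le_mul_left
              omega
            omega) (by
          intro v
          rw [Nat.le_div_iff_mul_le hrj', mul_comm]
          exact hU1 j (by omega) v) (by
          apply choose_bound D r k _ β hβ0 hk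
          have e1 : 2 * D / r ^ j < 32 * r * β + 1 := by
            rw [Nat.div_lt_iff_lt_mul hrj']
            have e2 : 2 * D < 2 * (2 * (β * (8 * r ^ (j + 1)))) := by omega
            calc 2 * D < 2 * (2 * (β * (8 * r ^ (j + 1)))) := e2
              _ = 32 * r * β * r ^ j := by ring
              _ ≤ (32 * r * β + 1) * r ^ j := Nat.mul_le_mul_right _ (Nat.le_succ _)
          omega) f hf
      obtain ⟨f', hf'⟩ := hstep
      refine ⟨f', ?_⟩
      have e1 : (j + 1) * k = j * k + k := by ring
      rw [e1]
      exact hf'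
  obtain ⟨f, hf⟩ := key J le_rfl
  refine good_final G W f0 b D m (J * k) K (2 * D / r ^ J) hW (U J) ?_ hK hf0 hb f hf
  intro v
  rw [Nat.le_div_iff_mul_le (pow_pos hr J), mul_comm]
  exact hU1 J le_rfl v

end Pool.Agent.D0H38.TC
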