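import Mathlib
import Pool.Agent.R61.TotExt
import Pool.Agent.N577.DT.D

/-!
# Extending total colourings with `D + 2 m + C (1 + log (D + 1))` colours
-/

set_option autoImplicit false

namespace Pool.Agent.D0H38.TC

open Finset Pool.Agent.H162R2.Sparse Pool.Agent.N577.DT
open Pool.Agent.R61.TotExt (IsTotal vext)

/-- the edges outside `R` whose colour is forbidden at one of the ends -/
def badG {V : Type} (F R : SimpleGraph V) (c : V → V → ℕ) (A : V → Finset ℕ)
    (hc : ∀ u v, c u v = c v u) : SimpleGraph V where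
  Adj u v := (F \ R).Adj u v ∧ (c u v ∈ A u ∨ c u v ∈ A v)
  symm := by
    constructor
    rintro u v ⟨h1, h2⟩
    refine ⟨h1.symm, ?_⟩
    rw [hc v u]
    exact h2.symm
  loopless := ⟨fun u h => (F \ R).loopless.irrefl u h.1⟩

open Classical in
/-- A total colouring of a set `W` of vertices and of a subgraph `H` with ends in `W`, proper with
respect to `G`, extends to `G`, if every vertex has at most `m` neighbours in `W` and the number of the
colours is at least `D + 2 m + 2500 (1 + log (D + 1))`. -/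
theorem logmain {V : Type} [Fintype V] (G H : SimpleGraph V) (W : Set V) (D m K : ℕ)
    (hD : ∀ v, (G.neighborSet v).ncard ≤ D) (hHG : H ≤ G)
    (hHW : ∀ u v, H.Adj u v → u ∈ W) (hm : ∀ v, (G.neighborSet v ∩ W).ncard ≤ m)
    (hK : (D : ℝ) + 2 * m + 2500 * (1 + Real.log (D + 1)) ≤ K)
    (f0 : V → Fin K) (g0 : Sym2 V → Fin K)
    (hf0 : ∀ u ∈ W, ∀ v ∈ W, G.Adj u v → f0 u ≠ f0 v)
    (hg0 : ∀ u v w, H.Adj u v → H.Adj u w → v ≠ w → g0 s(u, v) ≠ g0 s(u, w))
    (hfg : ∀ u v, H.Adj u v → g0 s(u, v) ≠ f0 u) :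
    ∃ (f : V → Fin K) (g : Sym2 V → Fin K), IsTotal G f g ∧ (∀ u ∈ W, f u = f0 u) ∧
      ∀ u v, H.Adj u v → g s(u, v) = g0 s(u, v) := by
  have hD0 : (0 : ℝ) ≤ D := by positivity
  have hlogd : 0 ≤ Real.log ((D : ℝ) + 1) := Real.log_nonneg (by linarith)
  set K0 : ℕ := max (D + 1) 64 with hK0
  have hK64 : 64 ≤ K0 := le_max_right _ _
  have hK0D : D + 1 ≤ K0 := le_max_left _ _
  set w2 : ℕ := ⌊284 * Real.log K0 + 16⌋₊ with hw2
  have hlogK : 0 ≤ Real.log (K0 : ℝ) := Real.log_natCast_nonneg K0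
  have hw20 : (0 : ℝ) ≤ 284 * Real.log K0 + 16 := by positivity
  have hw2le : (w2 : ℝ) ≤ 284 * Real.log K0 + 16 := Nat.floor_le hw20
  have hlogKd : Real.log K0 ≤ 4.16 + Real.log ((D : ℝ) + 1) := by
    have h1 : (K0 : ℝ) ≤ 64 * ((D : ℝ) + 1) := by
      have h2 : K0 ≤ 64 * (D + 1) := by
        rw [hK0]
        apply max_le
        · omega
        · omega
      exact_mod_cast h2
    have h3 : (0 : ℝ) < K0 := by
      have : (64 : ℝ) ≤ K0 := by exact_mod_cast hK64
      linarith
    have h4 := Real.log_le_log h3 h1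
    rw [Real.log_mul (by norm_num) (by linarith)] at h4
    have h5 : Real.log 64 ≤ 4.16 := by
      have h6 : (64 : ℝ) = 2 ^ 6 := by norm_num
      rw [h6, Real.log_pow]
      have := Real.log_two_lt_d9
      push_cast
      linarith
    linarith
  have hkK : K0 + 2 * w2 + 2 * m + 2 ≤ K := by
    have h1 : (K0 : ℝ) ≤ D + 64 := by
      have : K0 ≤ D + 64 := by
        rw [hK0]
        apply max_le
        · omega
        · omega
      exact_mod_cast this
    have h2 : (K0 : ℝ) + 2 * w2 + 2 * m + 2 ≤ K := by linarith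
    exact_mod_cast h2
  -- the colouring of the vertices
  obtain ⟨f, hf1, hf2⟩ := vext G f0 (fun v => v ∈ W) (fun u v hu hv => hf0 u hu v hv)
    (fun v => by
      refine lt_of_le_of_lt (hD v) (by omega))
  -- the neighbours in `W`
  have hW : ∀ v, (univ.filter (fun w => G.Adj v w ∧ w ∈ W)).card ≤ m := by
    intro v
    refine le_trans (le_of_eq ?_) (hm v)
    rw [← Set.ncard_coe_finset]
    congr 1
    ext w
    simp
  set F : SimpleGraph V := G \ H with hF
  have hFG : F ≤ G := sdiff_le
  have hFadj : ∀ u v, F.Adj u v ↔ G.Adj u v ∧ ¬ H.Adj u v := by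
    intro u v
    rw [hF, SimpleGraph.sdiff_adj]
  have hFdeg : ∀ v, (nb F v).card ≤ D := by
    intro v
    have h1 : (nb G v).card ≤ D := by
      refine le_trans (le_of_eq ?_) (hD v)
      rw [← Set.ncard_coe_finset]
      congr 1
      ext w
      rw [mem_coe, mem_nb]
      exact (SimpleGraph.mem_neighborSet G v w).symm
    refine le_trans (card_le_card ?_) h1
    intro w hw
    rw [mem_nb] at hw ⊢
    exact hFG hw
  obtain ⟨c, hc1, hc2, hc3⟩ := Pool.Agent.H238R2.HY.vizing F D (by
    intro v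
    have h1 := hFdeg v
    have h2 : F.degree v = (nb F v).card := by
      rw [← SimpleGraph.card_neighborFinset_eq_degree]
      congr 1
      ext u
      rw [mem_nb, SimpleGraph.mem_neighborFinset]
    omega)
  let y : Fin 2 → V → V → ℕ := fun i v u => if (i : ℕ) = 0 then (f v).1 else (f u).1
  obtain ⟨R, c1, hR, hRc, hcol, hlt, hB⟩ := t_edge V F c K0 2 1 y hK64 (by omega) le_rfl
    (by omega) ⟨hc1, hc3⟩ (fun v => by
      rw [kf_nb]
      have := hFdeg v
      omega) (fun u v huv => by
      have := hc2 u v huv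
      omega)
  choose B hB1 hB2 using hB
  -- the forbidden colours at a vertex
  set A : V → Finset ℕ := fun v => insert (f v).1
    ((univ.filter (fun x => H.Adj v x)).image (fun x => (g0 s(v, x)).1)) with hA
  have hAf : ∀ v, (f v).1 ∈ A v := fun v => mem_insert_self _ _
  have hAg : ∀ v x, H.Adj v x → (g0 s(v, x)).1 ∈ A v := by
    intro v x h
    exact mem_insert_of_mem (mem_image.2 ⟨x, by simpa using h, rfl⟩)
  have hAc : ∀ v, (A v).card ≤ (univ.filter (fun x => H.Adj v x)).card + 1 := by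
    intro v
    refine (card_insert_le _ _).trans ?_
    have h2 := card_image_le (s := univ.filter (fun x => H.Adj v x))
      (f := fun x => (g0 s(v, x)).1)
    omega
  have hAW : ∀ v, v ∉ W → A v = {(f v).1} := by
    intro v hv
    have h1 : (univ.filter (fun x => H.Adj v x)) = ∅ := by
      rw [filter_eq_empty_iff]
      intro x _ hx
      exact hv (hHW v x hx)
    simp only [hA, h1, image_empty]
    rfl
  have hHF : ∀ v, (univ.filter (fun x => H.Adj v x)).card +
      (univ.filter (fun w => F.Adj v w ∧ w ∈ W)).card ≤ m := by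
    intro v
    refine le_trans ?_ (hW v)
    rw [← card_union_of_disjoint]
    · apply card_le_card
      intro x hx
      rw [mem_union, mem_filter, mem_filter] at hx
      rw [mem_filter]
      rcases hx with hx | hx
      · exact ⟨mem_univ _, hHG hx.2, hHW x v hx.2.symm⟩
      · exact ⟨mem_univ _, hFG hx.2.1, hx.2.2⟩
    · rw [disjoint_left]
      intro x hx hx'
      rw [mem_filter] at hx hx'
      exact ((hFadj v x).1 hx'.2.1).2 hx.2
  set C := badG F R c1 A hcol.1 with hC
  set Γ2 := R ⊔ C with hΓ2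
  -- the degrees
  have hdeg2 : ∀ v, dg Γ2 v + ((A v).filter (fun γ => K0 ≤ γ)).card ≤ w2 + m + 1 := by
    intro v
    have h1 : nb Γ2 v ⊆ (nb R v ∪ B v) ∪ ((univ.filter (fun u => (F \ R).Adj v u ∧ c1 v u ∈ A v)) ∪
        (univ.filter (fun w => F.Adj v w ∧ w ∈ W))) := by
      intro u hu
      rw [mem_nb, hΓ2, SimpleGraph.sup_adj] at hu
      rcases hu with hu | hu
      · exact mem_union_left _ (mem_union_left _ ((mem_nb R v u).2 hu))
      · obtain ⟨hu1, hu2⟩ := hu
        rcases hu2 with h5 | h5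
        · exact mem_union_right _ (mem_union_left _ (mem_filter.2 ⟨mem_univ _, hu1, h5⟩))
        · by_cases huW : u ∈ W
          · refine mem_union_right _ (mem_union_right _ (mem_filter.2 ⟨mem_univ _, ?_, huW⟩))
            exact (show F \ R ≤ F from sdiff_le) hu1
          · refine mem_union_left _ (mem_union_right _ ?_)
            by_contra hnot
            obtain ⟨α, b', h1, h2, h3, h4⟩ := hB2 v u (by
              rw [kf_nb, mem_nb]
              exact hu1) hnot
            rw [hAW u huW, mem_singleton] at h5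
            apply h4 1
            have : y 1 v u = (f u).1 := rfl
            rw [this, ← h5]
            exact ⟨h2, h3⟩
    have h2 : (univ.filter (fun u => (F \ R).Adj v u ∧ c1 v u ∈ A v)).card ≤
        ((A v).filter (fun γ => ¬ K0 ≤ γ)).card := by
      refine card_le_card_of_injOn (fun u => c1 v u) ?_ ?_
      · intro u hu
        have hu' := (mem_filter.1 (mem_coe.1 hu)).2
        exact mem_coe.2 (mem_filter.2 ⟨hu'.2, not_le.2 (hlt v u hu'.1)⟩)
      · intro u hu u' hu' h
        by_contra hne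
        exact hcol.2 v u u' (mem_filter.1 (mem_coe.1 hu)).2.1 (mem_filter.1 (mem_coe.1 hu')).2.1
          hne h
    have h3 := card_filter_add_card_filter_not (s := A v) (fun γ => K0 ≤ γ)
    have h4 : (nb R v ∪ B v).card ≤ w2 := by
      rw [hw2, Nat.le_floor_iff hw20]
      have h5 : ((nb R v ∪ B v).card : ℝ) ≤ (nb R v).card + (B v).card := by
        exact_mod_cast card_union_le _ _
      have h6 := hRc v
      rw [kf_nb] at h6
      have h7 := hB1 v
      push_cast at h7
      linarith
    have h5 := card_le_card h1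
    have h6 := card_union_le (nb R v ∪ B v)
      ((univ.filter (fun u => (F \ R).Adj v u ∧ c1 v u ∈ A v)) ∪
        (univ.filter (fun w => F.Adj v w ∧ w ∈ W)))
    have h7 := card_union_le (univ.filter (fun u => (F \ R).Adj v u ∧ c1 v u ∈ A v))
        (univ.filter (fun w => F.Adj v w ∧ w ∈ W))
    have h8 := hAc v
    have h9 := hHF v
    unfold dg
    omega
  obtain ⟨c2, e1, e2, e3⟩ := greedy_LC (fun a b => Finset.Ico K0 K \ (A a ∪ A b)) (by
    intro a b
    rw [Finset.union_comm]) _ Γ2 rfl (by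
    intro u v _
    have h1 : Finset.Ico K0 K \ (A u ∪ A v) = Finset.Ico K0 K \
        ((A u).filter (fun γ => K0 ≤ γ) ∪ (A v).filter (fun γ => K0 ≤ γ)) := by
      ext γ
      simp only [mem_sdiff, mem_Ico, mem_union, mem_filter]
      tauto
    have h2 := Finset.le_card_sdiff
      ((A u).filter (fun γ => K0 ≤ γ) ∪ (A v).filter (fun γ => K0 ≤ γ)) (Finset.Ico K0 K)
    have h3 := Finset.card_union_le ((A u).filter (fun γ => K0 ≤ γ))
      ((A v).filter (fun γ => K0 ≤ γ))
    have h5 := hdeg2 u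
    have h6 := hdeg2 v
    rw [Nat.card_Ico] at h2
    show dg Γ2 u + dg Γ2 v ≤ (Finset.Ico K0 K \ (A u ∪ A v)).card + 1
    rw [h1]
    omega)
  have hold : ∀ u v, F.Adj u v → ¬ Γ2.Adj u v → (F \ R).Adj u v ∧ c1 u v ∉ A u ∧
      c1 u v ∉ A v ∧ c1 u v < K0 := by
    intro u v h1 h2
    have h3 : (F \ R).Adj u v := by
      rw [SimpleGraph.sdiff_adj]
      exact ⟨h1, fun h => h2 (by rw [hΓ2, SimpleGraph.sup_adj]; exact Or.inl h)⟩
    have h4 : ¬ C.Adj u v := fun h => h2 (by rw [hΓ2, SimpleGraph.sup_adj]; exact Or.inr h)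
    refine ⟨h3, fun h => h4 ⟨h3, Or.inl h⟩, fun h => h4 ⟨h3, Or.inr h⟩, hlt u v h3⟩
  have hnew : ∀ u v, Γ2.Adj u v → K0 ≤ c2 u v ∧ c2 u v < K ∧ c2 u v ∉ A u ∧ c2 u v ∉ A v := by
    intro u v h
    have h1 := e2 u v h
    rw [Finset.mem_sdiff, Finset.mem_Ico, Finset.mem_union, not_or] at h1
    exact ⟨h1.1.1, h1.1.2, h1.2.1, h1.2.2⟩
  -- the colour of an edge outside `H`
  set b : V → V → ℕ := fun u v => if Γ2.Adj u v then c2 u v else c1 u v with hb
  have bsymm : ∀ u v, b u v = b v u := by
    intro u v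
    simp only [hb]
    by_cases h : Γ2.Adj u v
    · rw [if_pos h, if_pos h.symm]
      exact e1 u v h
    · rw [if_neg h, if_neg (fun h' => h h'.symm)]
      exact hcol.1 u v
  have blt : ∀ u v, F.Adj u v → b u v < K ∧ b u v ∉ A u := by
    intro u v huv
    simp only [hb]
    by_cases h : Γ2.Adj u v
    · rw [if_pos h]
      obtain ⟨_, h2, h3, h4⟩ := hnew u v h
      exact ⟨h2, h3⟩
    · rw [if_neg h]
      obtain ⟨_, h2, h3, h4⟩ := hold u v huv h
      exact ⟨by omega, h2⟩
  have bprop : ∀ u v x, F.Adj u v → F.Adj u x → v ≠ x → b u v ≠ b u x := by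
    intro u v x huv hux hvx
    simp only [hb]
    by_cases h : Γ2.Adj u v
    · rw [if_pos h]
      obtain ⟨h1, _, _, _⟩ := hnew u v h
      by_cases h' : Γ2.Adj u x
      · rw [if_pos h']
        exact e3 u v x h h' hvx
      · rw [if_neg h']
        obtain ⟨_, _, _, h4⟩ := hold u x hux h'
        omega
    · rw [if_neg h]
      obtain ⟨h0, _, _, h4⟩ := hold u v huv h
      by_cases h' : Γ2.Adj u x
      · rw [if_pos h']
        obtain ⟨h1, _, _, _⟩ := hnew u x h'
        omega
      · rw [if_neg h']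
        obtain ⟨h0', _, _, _⟩ := hold u x hux h'
        exact hcol.2 u v x h0 h0' hvx
  set bs : Sym2 V → ℕ := Sym2.lift ⟨b, bsymm⟩ with hbs
  set gN : Sym2 V → ℕ := fun e => if e ∈ H.edgeSet then (g0 e).1 else bs e with hgN
  have g1 : ∀ u v, H.Adj u v → gN s(u, v) = (g0 s(u, v)).1 := by
    intro u v h
    simp only [hgN]
    rw [if_pos (by simpa using h)]
  have g2 : ∀ u v, F.Adj u v → gN s(u, v) = b u v := by
    intro u v h
    have hnot : ¬ H.Adj u v := ((hFadj u v).1 h).2
    simp only [hgN]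
    rw [if_neg (by simpa using hnot), hbs, Sym2.lift_mk]
  have hcases : ∀ u v, G.Adj u v → H.Adj u v ∨ F.Adj u v := by
    intro u v h
    by_cases h1 : H.Adj u v
    · exact Or.inl h1
    · exact Or.inr ((hFadj u v).2 ⟨h, h1⟩)
  have glt : ∀ u v, G.Adj u v → gN s(u, v) < K := by
    intro u v h
    rcases hcases u v h with h | h
    · rw [g1 u v h]
      exact (g0 s(u, v)).2
    · rw [g2 u v h]
      exact (blt u v h).1
  have hK1 : 0 < K := by omega
  set g : Sym2 V → Fin K := fun e => if h : gN e < K then ⟨gN e, h⟩ else ⟨0, hK1⟩ with hg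
  have gv : ∀ u v, G.Adj u v → (g s(u, v)).1 = gN s(u, v) := by
    intro u v h
    simp only [hg]
    rw [dif_pos (glt u v h)]
  refine ⟨f, g, ⟨fun u v h => hf2 u v h, ?_, ?_⟩, hf1, ?_⟩
  · intro u v w hv hw hvw heq
    have heq' : gN s(u, v) = gN s(u, w) := by
      rw [← gv u v hv, ← gv u w hw, heq]
    rcases hcases u v hv with h1 | h1 <;> rcases hcases u w hw with h2 | h2
    · rw [g1 u v h1, g1 u w h2] at heq'
      exact hg0 u v w h1 h2 hvw (Fin.ext heq')
    · rw [g1 u v h1, g2 u w h2] at heq'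
      exact (blt u w h2).2 (heq' ▸ hAg u v h1)
    · rw [g2 u v h1, g1 u w h2] at heq'
      exact (blt u v h1).2 (heq' ▸ hAg u w h2)
    · rw [g2 u v h1, g2 u w h2] at heq'
      exact bprop u v w h1 h2 hvw heq'
  · intro u v h heq
    have heq' : gN s(u, v) = (f u).1 := by
      rw [← gv u v h, heq]
    rcases hcases u v h with h1 | h1
    · rw [g1 u v h1, hf1 u (hHW u v h1)] at heq'
      exact hfg u v h1 (Fin.ext heq')
    · rw [g2 u v h1] at heq'
      exact (blt u v h1).2 (heq' ▸ hAf u)
  · intro u v h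
    apply Fin.ext
    rw [gv u v (hHG h), g1 u v h]

end Pool.Agent.D0H38.TC
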