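import Mathlib
import Pool.Agent.D0H55.TE.Deg
import Pool.Agent.R61.TotExt

/-!
# Extending total colourings greedily
-/

set_option autoImplicit false

namespace Pool.Agent.D0H38.TC

open Finset Pool.Agent.TH559.LE
open Pool.Agent.R61.TotExt (IsTotal vext)
open Pool.Agent.D0H55.TE (list_own)

open Classical in
/-- A total colouring of a set `W` of vertices and of a subgraph `H` with ends in `W`, proper with respect
to `G`, extends to `G`, if the number of the colours is at least `5 D + 2`. -/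
theorem greedy {V : Type} [Fintype V] (G H : SimpleGraph V) (W : Set V) (D K : ℕ)
    (hD : ∀ v, (G.neighborSet v).ncard ≤ D) (hHG : H ≤ G)
    (hHW : ∀ u v, H.Adj u v → u ∈ W) (hK : 5 * D + 2 ≤ K)
    (f0 : V → Fin K) (g0 : Sym2 V → Fin K)
    (hf0 : ∀ u ∈ W, ∀ v ∈ W, G.Adj u v → f0 u ≠ f0 v)
    (hg0 : ∀ u v w, H.Adj u v → H.Adj u w → v ≠ w → g0 s(u, v) ≠ g0 s(u, w))
    (hfg : ∀ u v, H.Adj u v → g0 s(u, v) ≠ f0 u) :
    ∃ (f : V → Fin K) (g : Sym2 V → Fin K), IsTotal G f g ∧ (∀ u ∈ W, f u = f0 u) ∧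
      ∀ u v, H.Adj u v → g s(u, v) = g0 s(u, v) := by
  have hdD : ∀ v, dg G v ≤ D := hD
  obtain ⟨f, hf1, hf2⟩ := vext G f0 (fun v => v ∈ W) (fun u v hu hv => hf0 u hu v hv)
    (fun v => lt_of_le_of_lt (hdD v) (by omega))
  set F : SimpleGraph V := G \ H with hF
  have hFG : F ≤ G := sdiff_le
  have hFadj : ∀ u v, F.Adj u v ↔ G.Adj u v ∧ ¬ H.Adj u v := by
    intro u v
    rw [hF, SimpleGraph.sdiff_adj]
  set A : V → Finset ℕ := fun v => insert (f v).1
    ((univ.filter (fun x => H.Adj v x)).image (fun x => (g0 s(v, x)).1)) with hA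
  have hAf : ∀ v, (f v).1 ∈ A v := fun v => mem_insert_self _ _
  have hAg : ∀ v x, H.Adj v x → (g0 s(v, x)).1 ∈ A v := by
    intro v x h
    exact mem_insert_of_mem (mem_image.2 ⟨x, by simpa using h, rfl⟩)
  have hAc : ∀ v, (A v).card ≤ D + 1 := by
    intro v
    refine (card_insert_le _ _).trans ?_
    have h1 : (univ.filter (fun x => H.Adj v x)).card ≤ D := by
      rw [← dg_eq]
      exact (dg_mono hHG v).trans (hdD v)
    have h2 := card_image_le (s := univ.filter (fun x => H.Adj v x))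
      (f := fun x => (g0 s(v, x)).1)
    omega
  set L : Sym2 V → Finset ℕ := fun e => (range K).filter (fun γ => ∀ w ∈ e, γ ∉ A w) with hL
  have hLc : ∀ u v, F.Adj u v → 2 * D + D ≤ (L s(u, v)).card + 1 := by
    intro u v huv
    have h1 : (A u ∪ A v).card ≤ 2 * D + 2 := by
      have := card_union_le (A u) (A v)
      have := hAc u
      have := hAc v
      omega
    have h2 : (range K) \ (A u ∪ A v) ⊆ L s(u, v) := by
      intro γ hγ
      rw [mem_sdiff, mem_union] at hγ
      rw [hL, mem_filter]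
      refine ⟨hγ.1, ?_⟩
      intro w hw hγw
      rw [Sym2.mem_iff] at hw
      rcases hw with rfl | rfl
      · exact hγ.2 (Or.inl hγw)
      · exact hγ.2 (Or.inr hγw)
    have h3 := card_le_card h2
    have h4 := le_card_sdiff (A u ∪ A v) (range K)
    rw [card_range] at h4
    omega
  obtain ⟨c, hc1, hc2⟩ := list_own F (fun _ _ => True) D D (fun _ _ _ => Or.inl trivial)
    (fun v => by
      refine le_trans (card_le_card ?_) (((dg_eq F v).symm.le).trans
        ((dg_mono hFG v).trans (hdD v)))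
      intro w hw
      simp only [mem_filter, mem_univ, true_and] at hw ⊢
      exact hw.1) (fun v => (dg_mono hFG v).trans (hdD v)) L hLc
  have hcmem : ∀ u v, F.Adj u v → c s(u, v) < K ∧ c s(u, v) ∉ A u := by
    intro u v h
    have h1 := hc1 u v h
    rw [hL, mem_filter, mem_range] at h1
    exact ⟨h1.1, h1.2 u (Sym2.mem_mk_left u v)⟩
  set gN : Sym2 V → ℕ := fun e => if e ∈ H.edgeSet then (g0 e).1 else c e with hgN
  have g1 : ∀ u v, H.Adj u v → gN s(u, v) = (g0 s(u, v)).1 := by
    intro u v h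
    simp only [hgN]
    rw [if_pos (by simpa using h)]
  have g2 : ∀ u v, F.Adj u v → gN s(u, v) = c s(u, v) := by
    intro u v h
    simp only [hgN]
    have hnot : ¬ H.Adj u v := ((hFadj u v).1 h).2
    rw [if_neg (by simpa using hnot)]
  have hcases : ∀ u v, G.Adj u v → H.Adj u v ∨ F.Adj u v := by
    intro u v h
    by_cases h1 : H.Adj u v
    · exact Or.inl h1
    · exact Or.inr ((hFadj u v).2 ⟨h, h1⟩)
  have glt : ∀ u v, G.Adj u v → gN s(u, v) < K := by
    intro u v h
    rcases hcases u v h with h | h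
    · rw [g1 u v h]
      exact (g0 s(u, v)).2
    · rw [g2 u v h]
      exact (hcmem u v h).1
  have hK0 : 0 < K := by omega
  set g : Sym2 V → Fin K := fun e => if h : gN e < K then ⟨gN e, h⟩ else ⟨0, hK0⟩ with hg
  have gv : ∀ u v, G.Adj u v → (g s(u, v)).1 = gN s(u, v) := by
    intro u v h
    simp only [hg]
    rw [dif_pos (glt u v h)]
  refine ⟨f, g, ⟨fun u v h => hf2 u v h, ?_, ?_⟩, hf1, ?_⟩
  · intro u v w hv hw hvw heq
    have heq' : gN s(u, v) = gN s(u, w) := by
      rw [← gv u v hv, ← gv u w hw, heq]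
    rcases hcases u v hv with h1 | h1 <;> rcases hcases u w hw with h2 | h2
    · rw [g1 u v h1, g1 u w h2] at heq'
      exact hg0 u v w h1 h2 hvw (Fin.ext heq')
    · rw [g1 u v h1, g2 u w h2] at heq'
      exact (hcmem u w h2).2 (heq' ▸ hAg u v h1)
    · rw [g2 u v h1, g1 u w h2] at heq'
      exact (hcmem u v h1).2 (heq' ▸ hAg u w h2)
    · rw [g2 u v h1, g2 u w h2] at heq'
      exact hc2 u v w h1 h2 hvw heq'
  · intro u v h heq
    have heq' : gN s(u, v) = (f u).1 := by
      rw [← gv u v h, heq]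
    rcases hcases u v h with h1 | h1
    · rw [g1 u v h1, hf1 u (hHW u v h1)] at heq'
      exact hfg u v h1 (Fin.ext heq')
    · rw [g2 u v h1] at heq'
      exact (hcmem u v h1).2 (heq' ▸ hAf u)
  · intro u v h
    apply Fin.ext
    rw [gv u v (hHG h), g1 u v h]

end Pool.Agent.D0H38.TC
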